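import Pool.Agent.H577.SQ.Norms

set_option autoImplicit false

/-! # The height over a quadratic field -/

namespace Pool.Agent.H577.SQ

open NumberField IsDedekindDomain Pool.Agent.W7.FH Pool.Agent.H577.UQ Height

/-- the largest of three numbers -/
noncomputable def mx3 (X : Fin 3 → ℝ) : ℝ := max (max (X 0) (X 1)) (X 2)

lemma le_mx3 (X : Fin 3 → ℝ) (i : Fin 3) : X i ≤ mx3 X := by
  unfold mx3
  fin_cases i
  · exact le_max_of_le_left (le_max_left _ _)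
  · exact le_max_of_le_left (le_max_right _ _)
  · exact le_max_right _ _

lemma mx3_eq (X : Fin 3 → ℝ) : ∃ i, mx3 X = X i := by
  unfold mx3
  rcases max_choice (max (X 0) (X 1)) (X 2) with h | h
  · rcases max_choice (X 0) (X 1) with h1 | h1
    · exact ⟨0, by rw [h, h1]⟩
    · exact ⟨1, by rw [h, h1]⟩
  · exact ⟨2, h⟩

lemma mx3_le {X : Fin 3 → ℝ} {C : ℝ} (h : ∀ i, X i ≤ C) : mx3 X ≤ C := by
  obtain ⟨i, hi⟩ := mx3_eq X
  rw [hi]
  exact h i

variable {K : Type} [Field K] [NumberField K]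

lemma prod_places (F : InfinitePlace K → ℝ) :
    ∏ w : InfinitePlace K, F w ^ w.mult = ∏ φ : K →+* ℂ, F (InfinitePlace.mk φ) := by
  classical
  rw [← Finset.prod_fiberwise (s := (Finset.univ : Finset (K →+* ℂ)))
    (g := fun φ : K →+* ℂ => InfinitePlace.mk φ)]
  refine Finset.prod_congr rfl fun w _ => ?_
  rw [← InfinitePlace.card_filter_mk_eq w, ← Finset.prod_const]
  refine Finset.prod_congr rfl fun φ hφ => ?_
  rw [Finset.mem_filter] at hφ
  rw [hφ.2]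

theorem mulHeight_two (σ τ : K →ₐ[ℚ] ℂ) (hστ : σ ≠ τ)
    (hmem : ∀ ρ : K →ₐ[ℚ] ℂ, ρ = σ ∨ ρ = τ) (t : Fin 3 → K) (ht : t 0 ≠ 0) :
    mulHeight ![t 0, t 1, t 2] = mx3 (fun i => ‖σ (t i)‖) * mx3 (fun i => ‖τ (t i)‖) * Hf t := by
  classical
  have huniv : (Finset.univ : Finset (K →ₐ[ℚ] ℂ)) = {σ, τ} := by
    ext ρ
    simpa using hmem ρ
  have hx : ![t 0, t 1, t 2] ≠ 0 := fun h0 => ht (congrFun h0 0)
  rw [NumberField.mulHeight_eq hx, prod_places (fun w => ⨆ i, w (![t 0, t 1, t 2] i))]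
  have h1 : ∏ᶠ v : FinitePlace K, ⨆ i, v (![t 0, t 1, t 2] i) = Hf t := by
    unfold Hf
    refine finprod_congr fun v => ?_
    rw [iSup_three]
    rfl
  rw [h1]
  congr 1
  have h2 : ∏ φ : K →+* ℂ, (⨆ i, (InfinitePlace.mk φ) (![t 0, t 1, t 2] i)) =
      ∏ φ : K →ₐ[ℚ] ℂ, mx3 (fun i => ‖φ (t i)‖) := by
    refine Fintype.prod_equiv (RingHom.equivRatAlgHom K ℂ) _ _ fun φ => ?_
    rw [iSup_three]
    rfl
  rw [h2, huniv, Finset.prod_pair hστ]

end Pool.Agent.H577.SQ
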