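import Pool.Agent.H577.UQ.Main

set_option autoImplicit false

/-! # The two embeddings of a quadratic field -/

namespace Pool.Agent.H577.SQ

open NumberField ComplexConjugate

/-- the embeddings and the automorphism of a quadratic field -/
structure Emb (K : Type) [Field K] [NumberField K] (σ τ : K →ₐ[ℚ] ℂ) (s : K ≃ₐ[ℚ] K) : Prop where
  ne : σ ≠ τ
  mem : ∀ ρ : K →ₐ[ℚ] ℂ, ρ = σ ∨ ρ = τ
  norm : ∀ x : K, ((|Algebra.norm ℚ x| : ℚ) : ℝ) = ‖σ x‖ * ‖τ x‖
  normC : ∀ x : K, ((Algebra.norm ℚ x : ℚ) : ℂ) = σ x * τ x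
  trC : ∀ x : K, ((Algebra.trace ℚ K x : ℚ) : ℂ) = σ x + τ x
  s_ne : s ≠ 1
  s_eq : ∀ x, σ (s x) = τ x
  s_inv : ∀ x, s (s x) = x

theorem setup (K : Type) [Field K] [NumberField K] (hK : Module.finrank ℚ K = 2) :
    ∃ (σ τ : K →ₐ[ℚ] ℂ) (s : K ≃ₐ[ℚ] K), Emb K σ τ s ∧
      ((∃ f g : K →+* ℝ, (∀ x, ((f x : ℝ) : ℂ) = σ x) ∧ (∀ x, ((g x : ℝ) : ℂ) = τ x)) ∨
       ((∀ x, τ x = conj (σ x)) ∧ ∀ φ : K →+* ℂ, ¬ ComplexEmbedding.IsReal φ)) := by
  classical
  have hcard : (Finset.univ : Finset (K →ₐ[ℚ] ℂ)).card = 2 := by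
    rw [Finset.card_univ, AlgHom.card, hK]
  obtain ⟨σ, τ, hστ, huniv⟩ := Finset.card_eq_two.1 hcard
  have hNm : ∀ x : K, ((Algebra.norm ℚ x : ℚ) : ℂ) = σ x * τ x := by
    intro x
    have := Algebra.norm_eq_prod_embeddings ℚ ℂ x
    rw [huniv, Finset.prod_pair hστ] at this
    exact this
  have hTr : ∀ x : K, ((Algebra.trace ℚ K x : ℚ) : ℂ) = σ x + τ x := by
    intro x
    have := trace_eq_sum_embeddings (K := ℚ) (L := K) ℂ (x := x)
    rw [huniv, Finset.sum_pair hστ] at this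
    exact this
  have hNabs : ∀ x : K, ((|Algebra.norm ℚ x| : ℚ) : ℝ) = ‖σ x‖ * ‖τ x‖ := by
    intro x
    rw [← norm_mul, ← hNm]
    simp
  let cj : ℂ →ₐ[ℚ] ℂ := (Complex.conjAe.toAlgHom).restrictScalars ℚ
  have hcj : ∀ z, cj z = (starRingEnd ℂ) z := fun z => rfl
  have hmem : ∀ ρ : K →ₐ[ℚ] ℂ, ρ = σ ∨ ρ = τ := by
    intro ρ
    have : ρ ∈ (Finset.univ : Finset (K →ₐ[ℚ] ℂ)) := Finset.mem_univ _
    rw [huniv, Finset.mem_insert, Finset.mem_singleton] at this
    exact this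
  -- the automorphism
  have hquad : Algebra.IsQuadraticExtension ℚ K := ⟨hK⟩
  obtain ⟨s, hs⟩ := InfinitePlace.ComplexEmbedding.exists_comp_symm_eq_of_comp_eq (k := ℚ)
    (σ : K →+* ℂ) (τ : K →+* ℂ) (RingHom.ext_rat _ _)
  have hs1 : ∀ x, σ (s.symm x) = τ x := by
    intro x
    exact congrArg (fun f : K →+* ℂ => f x) hs
  have hs0 : s.symm ≠ 1 := by
    intro h0
    apply hστ
    ext x
    have h1 := hs1 x
    rw [h0] at h1
    exact h1
  have hinv : ∀ x, s.symm (s.symm x) = x := by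
    have h1 : τ.comp (s.symm : K →ₐ[ℚ] K) = σ := by
      rcases hmem (τ.comp (s.symm : K →ₐ[ℚ] K)) with h2 | h2
      · exact h2
      · exfalso
        apply hs0
        ext x
        apply (τ : K →+* ℂ).injective
        exact congrArg (fun f : K →ₐ[ℚ] ℂ => f x) h2
    intro x
    apply (σ : K →+* ℂ).injective
    change σ (s.symm (s.symm x)) = σ x
    rw [hs1]
    exact congrArg (fun f : K →ₐ[ℚ] ℂ => f x) h1
  refine ⟨σ, τ, s.symm, ⟨hστ, hmem, hNabs, hNm, hTr, hs0, hs1, hinv⟩, ?_⟩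
  rcases hmem (cj.comp σ) with hσ | hσ
  · left
    rcases hmem (cj.comp τ) with hτ | hτ
    · exfalso
      apply hστ
      ext x
      have h1 : (starRingEnd ℂ) (τ x) = σ x := by
        rw [← hcj, ← AlgHom.comp_apply, hτ]
      have h2 : (starRingEnd ℂ) (σ x) = σ x := by
        rw [← hcj, ← AlgHom.comp_apply, hσ]
      have h3 : (starRingEnd ℂ) ((starRingEnd ℂ) (τ x)) = τ x := Complex.conj_conj _
      rw [← h3, h1, h2]
    · have hσr : ComplexEmbedding.IsReal (σ : K →+* ℂ) := by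
        rw [ComplexEmbedding.isReal_iff]
        ext x
        have h2 : (starRingEnd ℂ) (σ x) = σ x := by
          rw [← hcj, ← AlgHom.comp_apply, hσ]
        exact h2
      have hτr : ComplexEmbedding.IsReal (τ : K →+* ℂ) := by
        rw [ComplexEmbedding.isReal_iff]
        ext x
        have h2 : (starRingEnd ℂ) (τ x) = τ x := by
          rw [← hcj, ← AlgHom.comp_apply, hτ]
        exact h2
      exact ⟨hσr.embedding, hτr.embedding,
        fun x => ComplexEmbedding.IsReal.coe_embedding_apply hσr x,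
        fun x => ComplexEmbedding.IsReal.coe_embedding_apply hτr x⟩
  · right
    have hτ : ∀ x, τ x = conj (σ x) := by
      intro x
      rw [← hσ, AlgHom.comp_apply, hcj]
    refine ⟨hτ, fun φ hφ => ?_⟩
    apply hστ
    have h0 : ∀ x, conj (φ x) = φ x := by
      intro x
      rw [ComplexEmbedding.isReal_iff] at hφ
      exact congrArg (fun f : K →+* ℂ => f x) hφ
    let ψ : K →ₐ[ℚ] ℂ := RingHom.equivRatAlgHom K ℂ φ
    have hψ : ∀ x, ψ x = φ x := fun x => rfl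
    ext x
    rw [hτ]
    rcases hmem ψ with h1 | h1
    · rw [← h1, hψ, h0]
    · have h2 : conj (σ x) = ψ x := by rw [h1, hτ]
      have h3 : σ x = conj (ψ x) := by rw [← h2, Complex.conj_conj]
      rw [h3, Complex.conj_conj, hψ, h0]

end Pool.Agent.H577.SQ
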