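import Pool.Agent.H577.SQ.Mono

set_option autoImplicit false

/-! # Two real points are determined by the norms of the sums -/

namespace Pool.Agent.H577.SQ

namespace NP

variable {n : ℕ} {lam mu lam' mu' : ℝ}

lemma f1_iff (h : NP n lam mu) (h' : NP n lam' mu') (hn : 2 ≤ n) :
    (lam + mu) * (1 - mu') < (lam' + mu') * (1 - mu) ↔ mu < mu' := by
  refine ⟨fun h1 => ?_, h.f1 h' hn⟩
  by_contra hcon
  rcases (not_lt.1 hcon).lt_or_eq with h2 | h2
  · have := h'.f1 h hn h2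
    linarith
  · have h3 := h.lam_eq h' (by omega) h2.symm
    rw [h3, h2] at h1
    exact lt_irrefl _ h1

lemma f2_iff (h : NP n lam mu) (h' : NP n lam' mu') (hn : 2 ≤ n) :
    (1 - lam) * (lam' + mu') < (1 - lam') * (lam + mu) ↔ mu < mu' := by
  refine ⟨fun h1 => ?_, h.f2 h' hn⟩
  by_contra hcon
  rcases (not_lt.1 hcon).lt_or_eq with h2 | h2
  · have := h'.f2 h hn h2
    linarith
  · have h3 := h.lam_eq h' (by omega) h2.symm
    rw [h3, h2] at h1
    exact lt_irrefl _ h1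

lemma f3_iff (h : NP n lam mu) (h' : NP n lam' mu') (hn : 2 ≤ n) :
    (1 - lam) * (1 - mu') < (1 - lam') * (1 - mu) ↔ mu < mu' := by
  refine ⟨fun h1 => ?_, h.f3 h' hn⟩
  by_contra hcon
  rcases (not_lt.1 hcon).lt_or_eq with h2 | h2
  · have := h'.f3 h hn h2
    linarith
  · have h3 := h.lam_eq h' (by omega) h2.symm
    rw [h3, h2] at h1
    exact lt_irrefl _ h1

lemma f1_eq (h : NP n lam mu) (h' : NP n lam' mu') (hn : 2 ≤ n)
    (he : (lam + mu) * (1 - mu') = (lam' + mu') * (1 - mu)) : mu = mu' := by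
  rcases lt_trichotomy mu mu' with h1 | h1 | h1
  · exact absurd he (h.f1 h' hn h1).ne
  · exact h1
  · exact absurd he (h'.f1 h hn h1).ne'

lemma f2_eq (h : NP n lam mu) (h' : NP n lam' mu') (hn : 2 ≤ n)
    (he : (1 - lam) * (lam' + mu') = (1 - lam') * (lam + mu)) : mu = mu' := by
  rcases lt_trichotomy mu mu' with h1 | h1 | h1
  · exact absurd he (h.f2 h' hn h1).ne
  · exact h1
  · exact absurd he (h'.f2 h hn h1).ne'

lemma f3_eq (h : NP n lam mu) (h' : NP n lam' mu') (hn : 2 ≤ n)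
    (he : (1 - lam) * (1 - mu') = (1 - lam') * (1 - mu)) : mu = mu' := by
  rcases lt_trichotomy mu mu' with h1 | h1 | h1
  · exact absurd he (h.f3 h' hn h1).ne
  · exact h1
  · exact absurd he (h'.f3 h hn h1).ne'

end NP

/-- the sums of two coordinates, opposite to the largest, the second and the smallest coordinate -/
def val (lam mu : ℝ) : Fin 3 → ℝ := ![lam + mu, 1 - mu, 1 - lam]

@[simp] lemma val0 (lam mu : ℝ) : val lam mu 0 = lam + mu := rfl
@[simp] lemma val1 (lam mu : ℝ) : val lam mu 1 = 1 - mu := rfl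
@[simp] lemma val2 (lam mu : ℝ) : val lam mu 2 = 1 - lam := rfl

lemma val_pos {n : ℕ} {lam mu : ℝ} (h : NP n lam mu) (hn : n ≠ 0) (i : Fin 3) :
    0 < val lam mu i := by
  have h1 := h.lam_lt hn
  have h2 := h.mu_lt hn
  have h3 := h.one_le_sum hn
  fin_cases i
  · change 0 < lam + mu
    linarith
  · change 0 < 1 - mu
    linarith
  · change 0 < 1 - lam
    linarith

/-- the data of a solution in a real quadratic field -/
structure RD (n : ℕ) (r : Fin 3 → ℕ) (π : Equiv.Perm (Fin 3)) (lam1 mu1 lam2 mu2 H : ℝ) :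
    Prop where
  np1 : NP n lam1 mu1
  np2 : NP n lam2 mu2
  pos : 0 < H
  rel : ∀ j, val lam1 mu1 j * val lam2 mu2 (π j) * H = (r j : ℝ) ^ n

lemma cross {a b a' b' H H' A B : ℝ} (hH : 0 < H) (hH' : 0 < H') (h1 : a * H = A)
    (h2 : b * H = B) (h3 : a' * H' = A) (h4 : b' * H' = B) : a * b' = a' * b := by
  have h5 : (a * b') * (H * H') = (a' * b) * (H * H') := by
    calc (a * b') * (H * H') = (a * H) * (b' * H') := by ring
      _ = (a' * H') * (b * H) := by rw [h1, h2, h3, h4]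
      _ = (a' * b) * (H * H') := by ring
  exact mul_right_cancel₀ (mul_pos hH hH').ne' h5

lemma lt_of_prod {a b a' b' : ℝ} (h : a * b = a' * b') (ha : 0 < a) (hb : 0 < b)
    (hb' : 0 < b') (hlt : a < a') : b' < b := by
  by_contra hcon
  have h1 : a * b < a' * b' := by
    calc a * b < a' * b := mul_lt_mul_of_pos_right hlt hb
      _ ≤ a' * b' := by
        apply mul_le_mul_of_nonneg_left (not_lt.1 hcon) (by linarith)
  linarith

lemma perm3 : ∀ π : Equiv.Perm (Fin 3), (π 0 = 0 ∧ π 1 = 1 ∧ π 2 = 2) ∨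
    (π 0 = 0 ∧ π 1 = 2 ∧ π 2 = 1) ∨ (π 0 = 1 ∧ π 1 = 0 ∧ π 2 = 2) ∨
    (π 0 = 1 ∧ π 1 = 2 ∧ π 2 = 0) ∨ (π 0 = 2 ∧ π 1 = 0 ∧ π 2 = 1) ∨
    (π 0 = 2 ∧ π 1 = 1 ∧ π 2 = 0) := by decide

section

variable {n : ℕ} {r : Fin 3 → ℕ} {π : Equiv.Perm (Fin 3)} {lam1 mu1 lam2 mu2 H : ℝ}
  {lam1' mu1' lam2' mu2' H' : ℝ}

/-- the gaps between the powers -/
def Gap (n : ℕ) (r : Fin 3 → ℕ) : Prop :=
  ∀ i j, r i < r j → 100 * (n : ℝ) ^ 2 * (r i : ℝ) ^ n < (r j : ℝ) ^ n

lemma le_four {lam mu lam' mu' : ℝ} (h : NP n lam mu) (h' : NP n lam' mu') (hn : n ≠ 0) :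
    (lam + mu) * (lam' + mu') ≤ 4 := by
  have h1 := h.lam_lt hn
  have h2 := h.mu_lt hn
  have h3 := h'.lam_lt hn
  have h4 := h'.mu_lt hn
  have h5 := h.mu_pos
  have h6 := h'.mu_pos
  have h7 := h.le
  have h8 := h'.le
  have e1 : lam + mu ≤ 2 := by linarith
  have e2 : lam' + mu' ≤ 2 := by linarith
  nlinarith

/-- the same order at both places is impossible -/
lemma config1 (h : RD n r π lam1 mu1 lam2 mu2 H) (hn : 2 ≤ n) (hg : Gap n r)
    (h0 : π 0 = 0) (h1 : π 1 = 1) : False := by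
  have e0 := h.rel 0
  have e1 := h.rel 1
  rw [h0] at e0
  rw [h1] at e1
  simp only [val0, val1] at e0 e1
  have hn0 : n ≠ 0 := by omega
  have hnR : (2 : ℝ) ≤ n := by exact_mod_cast hn
  have hH := h.pos
  have a1 := h.np1.one_le_sum hn0
  have a2 := h.np2.one_le_sum hn0
  have b1 := h.np1.mu_lt hn0
  have b2 := h.np2.mu_lt hn0
  have c1 := h.np1.mu_pos
  have c2 := h.np2.mu_pos
  have d1 := h.np1.one_sub_mu hn0
  have d2 := h.np2.one_sub_mu hn0
  have hlt : (r 1 : ℝ) ^ n < (r 0 : ℝ) ^ n := by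
    rw [← e0, ← e1]
    apply mul_lt_mul_of_pos_right _ hH
    have h3 : (1 - mu1) * (1 - mu2) < 1 := by nlinarith
    have h4 : 1 ≤ (lam1 + mu1) * (lam2 + mu2) := by nlinarith
    linarith
  have h3 : r 1 < r 0 := by
    have := lt_of_pow_lt_pow_left₀ n (by positivity) hlt
    exact_mod_cast this
  have h4 := hg 1 0 h3
  rw [← e0, ← e1] at h4
  have h5 : (100 * (n : ℝ) ^ 2 * ((1 - mu1) * (1 - mu2))) * H <
      ((lam1 + mu1) * (lam2 + mu2)) * H := by linarith
  have h6 := lt_of_mul_lt_mul_right h5 hH.le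
  have h7 := le_four h.np1 h.np2 hn0
  have h8 : 1 ≤ (2 * n * (1 - mu1)) * (2 * n * (1 - mu2)) := by
    have := mul_le_mul d1 d2 (by norm_num) (by linarith)
    linarith
  nlinarith

/-- the largest and the second coordinate are exchanged -/
lemma config2 (h : RD n r π lam1 mu1 lam2 mu2 H) (hn : 2 ≤ n) (hg : Gap n r)
    (h0 : π 0 = 1) (h1 : π 1 = 0) : r 0 = r 1 ∧ mu1 = mu2 ∧ lam1 = lam2 := by
  have e0 := h.rel 0
  have e1 := h.rel 1
  rw [h0] at e0
  rw [h1] at e1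
  simp only [val0, val1] at e0 e1
  have hn0 : n ≠ 0 := by omega
  have hnR : (2 : ℝ) ≤ n := by exact_mod_cast hn
  have hH := h.pos
  have a1 := h.np1.one_le_sum hn0
  have a2 := h.np2.one_le_sum hn0
  have b1 := h.np1.mu_lt hn0
  have b2 := h.np2.mu_lt hn0
  have c1 := h.np1.mu_pos
  have c2 := h.np2.mu_pos
  have d1 := h.np1.one_sub_mu hn0
  have d2 := h.np2.one_sub_mu hn0
  have l1 := h.np1.lam_lt hn0
  have l2 := h.np2.lam_lt hn0
  -- a general bound
  have key : ∀ {p q p' q' : ℝ}, 1 ≤ p → p ≤ 2 → 1 ≤ p' → p' ≤ 2 → 0 < q → q ≤ 1 → 0 < q' → q' ≤ 1 →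
      1 ≤ 2 * n * q → 1 ≤ 2 * n * q' → ¬ (100 * (n : ℝ) ^ 2 * (p * q') < q * p') := by
    intro p q p' q' g1 g2 g3 g4 g5 g6 g7 g8 g9 g10 hlt
    have i1 : q * p' ≤ 2 := by nlinarith
    have i2 : q' ≤ p * q' := by nlinarith
    have i3 : 100 * (n : ℝ) ^ 2 * q' ≤ 100 * (n : ℝ) ^ 2 * (p * q') := by gcongr
    have i4 : 2 * (n : ℝ) * q' * (50 * n) ≥ 1 * (50 * n) := by gcongr
    nlinarith
  have hr : r 0 = r 1 := by
    rcases lt_trichotomy (r 0) (r 1) with h3 | h3 | h3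
    · exfalso
      have h4 := hg 0 1 h3
      rw [← e0, ← e1] at h4
      have h5 : (100 * (n : ℝ) ^ 2 * ((lam1 + mu1) * (1 - mu2))) * H <
          ((1 - mu1) * (lam2 + mu2)) * H := by linarith
      have h6 := lt_of_mul_lt_mul_right h5 hH.le
      exact key a1 (by linarith) a2 (by linarith) (by linarith) (by linarith) (by linarith)
        (by linarith) d1 d2 h6
    · exact h3
    · exfalso
      have h4 := hg 1 0 h3
      rw [← e0, ← e1] at h4
      have h5 : (100 * (n : ℝ) ^ 2 * ((lam2 + mu2) * (1 - mu1))) * H <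
          ((1 - mu2) * (lam1 + mu1)) * H := by linarith
      have h6 := lt_of_mul_lt_mul_right h5 hH.le
      exact key a2 (by linarith) a1 (by linarith) (by linarith) (by linarith) (by linarith)
        (by linarith) d2 d1 h6
  have hmu : mu1 = mu2 := by
    apply h.np1.f1_eq h.np2 hn
    have h3 : ((lam1 + mu1) * (1 - mu2)) * H = ((1 - mu1) * (lam2 + mu2)) * H := by
      rw [e0, e1, hr]
    have h4 := mul_right_cancel₀ hH.ne' h3
    linarith
  exact ⟨hr, hmu, h.np1.lam_eq h.np2 hn0 hmu⟩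

lemma config2_lt (h : RD n r π lam1 mu1 lam2 mu2 H) (h' : RD n r π lam1' mu1' lam2' mu2' H')
    (hn : 2 ≤ n) (hg : Gap n r) (h0 : π 0 = 1) (h1 : π 1 = 0) (h2 : π 2 = 2)
    (hlt : mu1 < mu1') : False := by
  obtain ⟨-, e1, e2⟩ := config2 h hn hg h0 h1
  obtain ⟨-, e1', e2'⟩ := config2 h' hn hg h0 h1
  have hn0 : n ≠ 0 := by omega
  have r0 := h.rel 0
  have r2 := h.rel 2
  have r0' := h'.rel 0
  have r2' := h'.rel 2
  rw [h0] at r0 r0'
  rw [h2] at r2 r2'
  simp only [val0, val1, val2] at r0 r2 r0' r2'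
  rw [← e1] at r0
  rw [← e2] at r2
  rw [← e1'] at r0'
  rw [← e2'] at r2'
  have c := cross h.pos h'.pos r0 r2 r0' r2'
  have g2 := h.np1.f2 h'.np1 hn hlt
  have g3 := h.np1.f3 h'.np1 hn hlt
  have p1 := val_pos h.np1 hn0
  have p1' := val_pos h'.np1 hn0
  have a0 := p1 0
  have a1 := p1 1
  have a2 := p1 2
  have a0' := p1' 0
  have a1' := p1' 1
  have a2' := p1' 2
  simp only [val0, val1, val2] at a0 a1 a2 a0' a1' a2'
  have g := mul_lt_mul'' g2 g3 (by positivity) (by positivity)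
  nlinarith

/-- `mu ^ n` is small if the norm of the sum `o` is larger than the norm of the sum `l` -/
lemma small_of_gap {a b c d : ℝ} (hc : NP n c d) (hn : 2 ≤ n) {A B H : ℝ} (hH : 0 < H)
    (h1 : A * H ≤ 4 * H) (h2 : a * (1 - c) * H = B) (h3 : 100 * (n : ℝ) ^ 2 * B < A * H)
    (ha : 1 ≤ 2 * n * a) (hb : b = d ^ n) : b ≤ 2 / 25 := by
  have hn0 : n ≠ 0 := by omega
  have hnR : (2 : ℝ) ≤ n := by exact_mod_cast hn
  have h4 : 100 * (n : ℝ) ^ 2 * (a * (1 - c)) < 4 := by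
    have h5 : (100 * (n : ℝ) ^ 2 * (a * (1 - c))) * H < 4 * H := by
      rw [← h2] at h3
      linarith
    exact lt_of_mul_lt_mul_right h5 hH.le
  have h5 := hc.mu_pow_le_one_sub_lam
  have h6 : 0 < 1 - c := by
    have := hc.lam_lt hn0
    linarith
  rw [hb]
  have h7 : (n : ℝ) * (1 - c) ≤ (2 * n * a) * (n * (1 - c)) := by
    have : 0 ≤ (n : ℝ) * (1 - c) := by positivity
    nlinarith
  nlinarith

lemma config3_small (h : RD n r π lam1 mu1 lam2 mu2 H) (hn : 2 ≤ n) (hg : Gap n r)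
    (h0 : π 0 = 0) (h1 : π 1 = 2) (h2 : π 2 = 1) : mu1 ^ n ≤ 2 / 25 ∧ mu2 ^ n ≤ 2 / 25 := by
  have e0 := h.rel 0
  have e1 := h.rel 1
  have e2 := h.rel 2
  rw [h0] at e0
  rw [h1] at e1
  rw [h2] at e2
  simp only [val0, val1, val2] at e0 e1 e2
  have hn0 : n ≠ 0 := by omega
  have hH := h.pos
  have a1 := h.np1.one_le_sum hn0
  have a2 := h.np2.one_le_sum hn0
  have b1 := h.np1.mu_lt hn0
  have b2 := h.np2.mu_lt hn0
  have c1 := h.np1.mu_pos
  have c2 := h.np2.mu_pos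
  have d1 := h.np1.one_sub_mu hn0
  have d2 := h.np2.one_sub_mu hn0
  have l1 := h.np1.lam_lt hn0
  have l2 := h.np2.lam_lt hn0
  have m1 := h.np1.lam_pos
  have m2 := h.np2.lam_pos
  have hle : 1 ≤ (lam1 + mu1) * (lam2 + mu2) := by nlinarith
  have h4 := le_four h.np1 h.np2 hn0
  refine ⟨?_, ?_⟩
  · have hlt : (r 2 : ℝ) ^ n < (r 0 : ℝ) ^ n := by
      rw [← e0, ← e2]
      apply mul_lt_mul_of_pos_right _ hH
      have h3 : (1 - lam1) * (1 - mu2) < 1 := by nlinarith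
      linarith
    have h3 : r 2 < r 0 := by
      have := lt_of_pow_lt_pow_left₀ n (by positivity) hlt
      exact_mod_cast this
    refine small_of_gap (a := 1 - mu2) h.np1 hn hH (A := (lam1 + mu1) * (lam2 + mu2))
      (B := (r 2 : ℝ) ^ n) ?_ (by rw [mul_comm (1 - mu2)]; exact e2)
      (by rw [e0]; exact hg 2 0 h3) d2 rfl
    gcongr
  · have hlt : (r 1 : ℝ) ^ n < (r 0 : ℝ) ^ n := by
      rw [← e0, ← e1]
      apply mul_lt_mul_of_pos_right _ hH
      have h3 : (1 - mu1) * (1 - lam2) < 1 := by nlinarith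
      linarith
    have h3 : r 1 < r 0 := by
      have := lt_of_pow_lt_pow_left₀ n (by positivity) hlt
      exact_mod_cast this
    refine small_of_gap (a := 1 - mu1) h.np2 hn hH (A := (lam1 + mu1) * (lam2 + mu2)) ?_
      e1 (by rw [e0]; exact hg 1 0 h3) d1 rfl
    gcongr

lemma config3_lt (h : RD n r π lam1 mu1 lam2 mu2 H) (h' : RD n r π lam1' mu1' lam2' mu2' H')
    (hn : 5 ≤ n) (hg : Gap n r) (h0 : π 0 = 0) (h1 : π 1 = 2) (h2 : π 2 = 1)
    (hlt : mu1 < mu1') : False := by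
  have hn0 : n ≠ 0 := by omega
  have hn2 : 2 ≤ n := by omega
  obtain ⟨s1, s2⟩ := config3_small h' hn2 hg h0 h1 h2
  have r0 := h.rel 0
  have r1 := h.rel 1
  have r2 := h.rel 2
  have r0' := h'.rel 0
  have r1' := h'.rel 1
  have r2' := h'.rel 2
  rw [h0] at r0 r0'
  rw [h1] at r1 r1'
  rw [h2] at r2 r2'
  simp only [val0, val1, val2] at r0 r1 r2 r0' r1' r2'
  have c1 := cross h.pos h'.pos r0 r1 r0' r1'
  have c2 := cross h.pos h'.pos r0 r2 r0' r2'
  have p1 := val_pos h.np1 hn0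
  have p2 := val_pos h.np2 hn0
  have p1' := val_pos h'.np1 hn0
  have p2' := val_pos h'.np2 hn0
  have a0 := p1 0
  have a1 := p1 1
  have a2 := p1 2
  have b0 := p2 0
  have b1 := p2 1
  have b2 := p2 2
  have a0' := p1' 0
  have a1' := p1' 1
  have a2' := p1' 2
  have b0' := p2' 0
  have b1' := p2' 1
  have b2' := p2' 2
  simp only [val0, val1, val2] at a0 a1 a2 b0 b1 b2 a0' a1' a2' b0' b1' b2'
  have g1 := h.np1.f1 h'.np1 hn2 hlt
  -- the second point moves in the same direction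
  have hlt2 : mu2 < mu2' := by
    rw [← h.np2.f2_iff h'.np2 hn2]
    have e : ((lam1 + mu1) * (1 - mu1')) * ((1 - lam2') * (lam2 + mu2)) =
        ((lam1' + mu1') * (1 - mu1)) * ((1 - lam2) * (lam2' + mu2')) := by
      linear_combination c1
    exact lt_of_prod e (by positivity) (by positivity) (by positivity) g1
  have k1 := h.np1.f4 h'.np1 hn hlt s1
  have k2 := h.np2.f4 h'.np2 hn hlt2 s2
  have k := mul_lt_mul'' k1 k2 (by positivity) (by positivity)
  have c3 : ((lam1 + mu1) * (lam2 + mu2) * ((1 - mu1') * (1 - lam2'))) *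
      ((lam1 + mu1) * (lam2 + mu2) * ((1 - lam1') * (1 - mu2'))) =
      ((lam1' + mu1') * (lam2' + mu2') * ((1 - mu1) * (1 - lam2))) *
      ((lam1' + mu1') * (lam2' + mu2') * ((1 - lam1) * (1 - mu2))) := by
    rw [c1, c2]
  exact k.ne (by linear_combination -c3)

lemma config4_lt (h : RD n r π lam1 mu1 lam2 mu2 H) (h' : RD n r π lam1' mu1' lam2' mu2' H')
    (hn : 2 ≤ n) (h0 : π 0 = 2) (h1 : π 1 = 1) (h2 : π 2 = 0)
    (hlt : mu1 < mu1') : False := by
  have hn0 : n ≠ 0 := by omega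
  have r0 := h.rel 0
  have r1 := h.rel 1
  have r2 := h.rel 2
  have r0' := h'.rel 0
  have r1' := h'.rel 1
  have r2' := h'.rel 2
  rw [h0] at r0 r0'
  rw [h1] at r1 r1'
  rw [h2] at r2 r2'
  simp only [val0, val1, val2] at r0 r1 r2 r0' r1' r2'
  have c1 := cross h.pos h'.pos r0 r1 r0' r1'
  have c2 := cross h.pos h'.pos r0 r2 r0' r2'
  have p1 := val_pos h.np1 hn0
  have p2 := val_pos h.np2 hn0
  have p1' := val_pos h'.np1 hn0
  have p2' := val_pos h'.np2 hn0
  have a0 := p1 0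
  have a1 := p1 1
  have a2 := p1 2
  have b0 := p2 0
  have b1 := p2 1
  have b2 := p2 2
  have a0' := p1' 0
  have a1' := p1' 1
  have a2' := p1' 2
  have b0' := p2' 0
  have b1' := p2' 1
  have b2' := p2' 2
  simp only [val0, val1, val2] at a0 a1 a2 b0 b1 b2 a0' a1' a2' b0' b1' b2'
  have g1 := h.np1.f1 h'.np1 hn hlt
  have g2 := h.np1.f2 h'.np1 hn hlt
  have hlt2 : mu2 < mu2' := by
    rw [← h.np2.f2_iff h'.np2 hn]
    have e : ((1 - lam1) * (lam1' + mu1')) * ((1 - lam2') * (lam2 + mu2)) =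
        ((1 - lam1') * (lam1 + mu1)) * ((1 - lam2) * (lam2' + mu2')) := by
      linear_combination -c2
    exact lt_of_prod e (by positivity) (by positivity) (by positivity) g2
  have hlt3 : mu2' < mu2 := by
    rw [← h'.np2.f3_iff h.np2 hn]
    have e : ((lam1 + mu1) * (1 - mu1')) * ((1 - lam2) * (1 - mu2')) =
        ((lam1' + mu1') * (1 - mu1)) * ((1 - lam2') * (1 - mu2)) := by
      linear_combination c1
    exact lt_of_prod e (by positivity) (by positivity) (by positivity) g1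
  linarith

lemma config5_lt (h : RD n r π lam1 mu1 lam2 mu2 H) (h' : RD n r π lam1' mu1' lam2' mu2' H')
    (hn : 2 ≤ n) (h0 : π 0 = 1) (h1 : π 1 = 2) (h2 : π 2 = 0)
    (hlt : mu1 < mu1') : False := by
  have hn0 : n ≠ 0 := by omega
  have r0 := h.rel 0
  have r1 := h.rel 1
  have r2 := h.rel 2
  have r0' := h'.rel 0
  have r1' := h'.rel 1
  have r2' := h'.rel 2
  rw [h0] at r0 r0'
  rw [h1] at r1 r1'
  rw [h2] at r2 r2'
  simp only [val0, val1, val2] at r0 r1 r2 r0' r1' r2'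
  have c1 := cross h.pos h'.pos r0 r1 r0' r1'
  have c2 := cross h.pos h'.pos r0 r2 r0' r2'
  have p1 := val_pos h.np1 hn0
  have p2 := val_pos h.np2 hn0
  have p1' := val_pos h'.np1 hn0
  have p2' := val_pos h'.np2 hn0
  have a0 := p1 0
  have a1 := p1 1
  have a2 := p1 2
  have b0 := p2 0
  have b1 := p2 1
  have b2 := p2 2
  have a0' := p1' 0
  have a1' := p1' 1
  have a2' := p1' 2
  have b0' := p2' 0
  have b1' := p2' 1
  have b2' := p2' 2
  simp only [val0, val1, val2] at a0 a1 a2 b0 b1 b2 a0' a1' a2' b0' b1' b2'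
  have g1 := h.np1.f1 h'.np1 hn hlt
  have g2 := h.np1.f2 h'.np1 hn hlt
  have hlt2 : mu2 < mu2' := by
    rw [← h.np2.f3_iff h'.np2 hn]
    have e : ((lam1 + mu1) * (1 - mu1')) * ((1 - lam2') * (1 - mu2)) =
        ((lam1' + mu1') * (1 - mu1)) * ((1 - lam2) * (1 - mu2')) := by
      linear_combination c1
    exact lt_of_prod e (by positivity) (by positivity) (by positivity) g1
  have hlt3 : mu2' < mu2 := by
    rw [← h'.np2.f1_iff h.np2 hn]
    have e : ((1 - lam1) * (lam1' + mu1')) * ((lam2 + mu2) * (1 - mu2')) =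
        ((1 - lam1') * (lam1 + mu1)) * ((lam2' + mu2') * (1 - mu2)) := by
      linear_combination -c2
    exact lt_of_prod e (by positivity) (by positivity) (by positivity) g2
  linarith

/-- exchanging the two places -/
lemma RD.symm (h : RD n r π lam1 mu1 lam2 mu2 H) :
    RD n (r ∘ π.symm) π.symm lam2 mu2 lam1 mu1 H := by
  refine ⟨h.np2, h.np1, h.pos, fun j => ?_⟩
  have h1 := h.rel (π.symm j)
  rw [Equiv.apply_symm_apply] at h1
  rw [Function.comp_apply, ← h1]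
  ring

lemma Gap.symm (hg : Gap n r) (π : Equiv.Perm (Fin 3)) : Gap n (r ∘ π.symm) :=
  fun i j => hg (π.symm i) (π.symm j)

/-- the first point is determined -/
lemma uniq_lt (h : RD n r π lam1 mu1 lam2 mu2 H) (h' : RD n r π lam1' mu1' lam2' mu2' H')
    (hn : 5 ≤ n) (hg : Gap n r) : ¬ mu1 < mu1' := by
  intro hlt
  have hn2 : 2 ≤ n := by omega
  rcases perm3 π with ⟨h0, h1, h2⟩ | ⟨h0, h1, h2⟩ | ⟨h0, h1, h2⟩ | ⟨h0, h1, h2⟩ | ⟨h0, h1, h2⟩ |
    ⟨h0, h1, h2⟩
  · exact config1 h hn2 hg h0 h1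
  · exact config3_lt h h' hn hg h0 h1 h2 hlt
  · exact config2_lt h h' hn2 hg h0 h1 h2 hlt
  · exact config5_lt h h' hn2 h0 h1 h2 hlt
  · -- exchange the two places
    have g0 : π.symm 0 = 1 := by rw [Equiv.symm_apply_eq, h1]
    have g1 : π.symm 1 = 2 := by rw [Equiv.symm_apply_eq, h2]
    have g2 : π.symm 2 = 0 := by rw [Equiv.symm_apply_eq, h0]
    rcases lt_trichotomy mu2 mu2' with h3 | h3 | h3
    · exact config5_lt h.symm h'.symm hn2 g0 g1 g2 h3
    · -- the second points are equal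
      have hl := h.np2.lam_eq h'.np2 (by omega) h3
      have r0 := h.rel 0
      have r1 := h.rel 1
      have r0' := h'.rel 0
      have r1' := h'.rel 1
      rw [h0] at r0 r0'
      rw [h1] at r1 r1'
      simp only [val0, val1, val2] at r0 r1 r0' r1'
      have c1 := cross h.pos h'.pos r0 r1 r0' r1'
      rw [h3, hl] at c1
      have b0' := val_pos h'.np2 (by omega) 0
      have b2' := val_pos h'.np2 (by omega) 2
      simp only [val0, val2] at b0' b2'
      have c2 : ((1 - lam2') * (lam2' + mu2')) * ((lam1 + mu1) * (1 - mu1')) =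
          ((1 - lam2') * (lam2' + mu2')) * ((lam1' + mu1') * (1 - mu1)) := by
        linear_combination c1
      have c3 := mul_left_cancel₀ (by positivity) c2
      have c4 := h.np1.f1_eq h'.np1 hn2 c3
      linarith
    · exact config5_lt h'.symm h.symm hn2 g0 g1 g2 h3
  · exact config4_lt h h' hn2 h0 h1 h2 hlt

theorem uniq (h : RD n r π lam1 mu1 lam2 mu2 H) (h' : RD n r π lam1' mu1' lam2' mu2' H')
    (hn : 5 ≤ n) (hg : Gap n r) : mu1 = mu1' ∧ lam1 = lam1' := by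
  have h1 : mu1 = mu1' :=
    le_antisymm (not_lt.1 (uniq_lt h' h hn hg)) (not_lt.1 (uniq_lt h h' hn hg))
  exact ⟨h1, h.np1.lam_eq h'.np1 (by omega) h1⟩

end

end Pool.Agent.H577.SQ
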