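import Pool.Agent.H577.SQ.Gap
import Pool.Agent.H577.SQ.Heights
import Pool.Agent.H577.SQ.Setup
import Pool.Agent.H577.SQ.Uniq

set_option autoImplicit false

/-! # Imaginary quadratic fields -/

namespace Pool.Agent.H577.SQ

open NumberField IsDedekindDomain Pool.Agent.W7.FH Pool.Agent.H577.UQ Height ComplexConjugate

lemma fin3_cases (o i : Fin 3) : i = o ∨ i = o + 1 ∨ i = o + 2 := by
  revert o i
  decide

lemma fermat_cyc {K : Type} [Field K] {n : ℕ} (t : Fin 3 → K)
    (hF : (t 0) ^ n + (t 1) ^ n + (t 2) ^ n = 0) (i : Fin 3) :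
    (t (i + 1)) ^ n + (t (i + 2)) ^ n + (t i) ^ n = 0 := by
  fin_cases i
  · change (t 1) ^ n + (t 2) ^ n + (t 0) ^ n = 0
    linear_combination hF
  · change (t 2) ^ n + (t 0) ^ n + (t 1) ^ n = 0
    linear_combination hF
  · change (t 0) ^ n + (t 1) ^ n + (t 2) ^ n = 0
    exact hF

theorem imag_main {K : Type} [Field K] [NumberField K] {σ τ : K →ₐ[ℚ] ℂ} {s : K ≃ₐ[ℚ] K}
    (hE : Emb K σ τ s) (hτ : ∀ x, τ x = conj (σ x)) {n Q : ℕ} (h5 : 5 ≤ n) (hodd : Odd n)
    (hQ : (Q : ℝ) * (2 * Real.log n + 5) ≤ n)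
    (t : Fin 3 → K) (ht : ∀ i, t i ≠ 0) (hF : (t 0) ^ n + (t 1) ^ n + (t 2) ^ n = 0)
    (hH : 4 * mulHeight ![t 0, t 1, t 2] < (Q : ℝ) ^ n) (r : Fin 3 → ℕ) (hHf : 0 < Hf t)
    (hr : ∀ i, 1 ≤ r i ∧ ((|Algebra.norm ℚ (Sm t i)| : ℚ) : ℝ) * Hf t = (r i : ℝ) ^ n)
    (hreq : ¬ ∀ i j, r i = r j) :
    (∀ i, (r i : ℝ) ^ n ≤ 4 * mulHeight ![t 0, t 1, t 2]) ∧
    ∃ o : Fin 3, s (t (o + 1) / t o) = t (o + 2) / t o ∧ r (o + 1) = r (o + 2) ∧ r o < r (o + 1) ∧
      4 * mulHeight ![t 0, t 1, t 2] ≤ 5 * (r (o + 1) : ℝ) ^ n ∧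
      (σ (t (o + 1) / t o)).im ≠ 0 ∧ (σ (t (o + 1) / t o)).re ≠ 0 ∧
      4 * n * |(σ (t (o + 1) / t o)).re| ≤ |(σ (t (o + 1) / t o)).im| := by
  classical
  have hnR : (5 : ℝ) ≤ n := by exact_mod_cast h5
  have hFi := fermat_cyc t hF
  have hS : ∀ i, Sm t i ≠ 0 := fun i => add_ne_zero_of_fermat hodd (ht i) (hFi i)
  have hτn : ∀ x, ‖τ x‖ = ‖σ x‖ := by
    intro x
    rw [hτ, Complex.norm_conj]
  -- the absolute values
  set M : ℝ := mx3 (fun i => ‖σ (t i)‖) with hM
  have hMpos : 0 < M := (norm_pos_iff.2 ((map_ne_zero σ).2 (ht 0))).trans_le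
    (le_mx3 (fun i => ‖σ (t i)‖) 0)
  have hheight : mulHeight ![t 0, t 1, t 2] = M * M * Hf t := by
    rw [mulHeight_two σ τ hE.ne hE.mem t (ht 0)]
    have h1 : mx3 (fun i => ‖τ (t i)‖) = M := by
      rw [hM]
      congr 1
      funext i
      exact hτn _
    rw [h1]
  set T : Fin 3 → ℝ := fun i => ‖σ (Sm t i)‖ with hT
  have hTpos : ∀ i, 0 < T i := fun i => norm_pos_iff.2 ((map_ne_zero σ).2 (hS i))
  have hrT : ∀ i, T i * T i * Hf t = (r i : ℝ) ^ n := by
    intro i
    rw [← (hr i).2, hE.norm, hτn]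
  have hTM : ∀ i, T i ≤ 2 * M := by
    intro i
    change ‖σ (t (i + 1) + t (i + 2))‖ ≤ 2 * M
    rw [map_add]
    refine (norm_add_le _ _).trans ?_
    have h1 := le_mx3 (fun i => ‖σ (t i)‖) (i + 1)
    have h2 := le_mx3 (fun i => ‖σ (t i)‖) (i + 2)
    rw [← hM] at h1 h2
    linarith
  have hr4 : ∀ i, (r i : ℝ) ^ n ≤ 4 * mulHeight ![t 0, t 1, t 2] := by
    intro i
    rw [← hrT, hheight]
    have h1 : T i * T i ≤ (2 * M) * (2 * M) := by
      have := hTM i
      have := hTpos i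
      gcongr
    calc T i * T i * Hf t ≤ (2 * M) * (2 * M) * Hf t := by gcongr
      _ = 4 * (M * M * Hf t) := by ring
  have hrQ : ∀ i, r i < Q := by
    intro i
    have h1 := (hr4 i).trans_lt hH
    have h2 := lt_of_pow_lt_pow_left₀ n (by positivity) h1
    exact_mod_cast h2
  -- large sums
  have hlt : ∀ i j, M / (5 * n) < T i → ¬ r i < r j := by
    intro i j hi hij
    have h1 := gap (n := n) (Q := Q) (r := r i) (by omega) hQ (hr i).1
      (by have := hrQ j; omega)
    have h2 : ((r i + 1 : ℕ) : ℝ) ^ n ≤ (r j : ℝ) ^ n := by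
      apply pow_le_pow_left₀ (by positivity)
      exact_mod_cast hij
    have h3 : (r j : ℝ) ^ n ≤ 4 * (M * M * Hf t) := by rw [← hheight]; exact hr4 j
    have h4 : M * M * Hf t ≤ 25 * (n : ℝ) ^ 2 * (r i : ℝ) ^ n := by
      rw [← hrT i]
      have h5 : M ≤ T i * (5 * n) := by
        rw [div_lt_iff₀ (by positivity)] at hi
        exact hi.le
      calc M * M * Hf t ≤ (T i * (5 * n)) * (T i * (5 * n)) * Hf t := by
            have := hTpos i
            gcongr
        _ = 25 * (n : ℝ) ^ 2 * (T i * T i * Hf t) := by ring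
    linarith
  have hbig : ∀ i j, M / (5 * n) < T i → M / (5 * n) < T j → r i = r j := by
    intro i j hi hj
    exact le_antisymm (not_lt.1 (hlt j i hj)) (not_lt.1 (hlt i j hi))
  have hmax : ∀ i, M ≤ max (max ‖σ (t i)‖ ‖σ (t (i + 1))‖) ‖σ (t (i + 2))‖ := by
    intro i
    rw [hM]
    apply mx3_le
    intro j
    rcases fin3_cases i j with rfl | rfl | rfl
    · exact le_max_of_le_left (le_max_left _ _)
    · exact le_max_of_le_left (le_max_right _ _)
    · exact le_max_right _ _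
  have hFσ : ∀ i, σ (t i) ^ n + σ (t (i + 1)) ^ n + σ (t (i + 2)) ^ n = 0 := by
    intro i
    rw [← map_pow, ← map_pow, ← map_pow, ← map_add, ← map_add]
    have h1 := hFi i
    rw [show t i ^ n + t (i + 1) ^ n + t (i + 2) ^ n = 0 by linear_combination h1, map_zero]
  have e12 : ∀ i : Fin 3, i + 1 + 1 = i + 2 := by decide
  have e13 : ∀ i : Fin 3, i + 1 + 2 = i := by decide
  have e23 : ∀ i : Fin 3, i + 2 + 1 = i := by decide
  have e24 : ∀ i : Fin 3, i + 2 + 2 = i + 1 := by decide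
  have hTi : ∀ i, ‖σ (t (i + 1)) + σ (t (i + 2))‖ = T i := by
    intro i
    rw [← map_add]
    rfl
  have hnot : ∀ i, T i ≤ M / (5 * n) → ¬ T (i + 1) ≤ M / (5 * n) := by
    intro i h1 h2
    refine not_both hodd (X := σ (t i)) (Y := σ (t (i + 1))) (Z := σ (t (i + 2))) (M := M)
      ((map_ne_zero σ).2 (ht _)) ((map_ne_zero σ).2 (ht _)) (hFσ i) (hmax i) ?_ ?_
    · rw [hTi]
      exact h1
    · have h3 := hTi (i + 1)
      rw [e12, e13] at h3
      rw [h3]
      exact h2
  have hsmall : ∃ o, T o ≤ M / (5 * n) := by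
    by_contra hcon
    push Not at hcon
    exact hreq fun i j => hbig i j (hcon i) (hcon j)
  obtain ⟨o, ho⟩ := hsmall
  have ho1 : M / (5 * n) < T (o + 1) := not_le.1 (hnot o ho)
  have ho2 : M / (5 * n) < T (o + 2) := by
    apply not_le.1
    intro h1
    apply hnot (o + 2) h1
    rw [e23]
    exact ho
  have hr12 : r (o + 1) = r (o + 2) := hbig _ _ ho1 ho2
  have hT12 : T (o + 1) = T (o + 2) := by
    have h1 : T (o + 1) * T (o + 1) * Hf t = T (o + 2) * T (o + 2) * Hf t := by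
      rw [hrT, hrT, hr12]
    have h2 := mul_right_cancel₀ hHf.ne' h1
    exact (mul_self_inj (hTpos _).le (hTpos _).le).1 h2
  have hro : r o < r (o + 1) := by
    have h1 : (r o : ℝ) ^ n ≤ (r (o + 1) : ℝ) ^ n := by
      rw [← hrT, ← hrT]
      have h2 : T o ≤ T (o + 1) := ho.trans ho1.le
      have := hTpos o
      gcongr
    have h2 : r o ≤ r (o + 1) := by
      have h3 := le_of_pow_le_pow_left₀ (by omega : n ≠ 0) (by positivity) h1
      exact_mod_cast h3
    refine lt_of_le_of_ne h2 fun h3 => hreq fun i j => ?_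
    have h4 : ∀ k, r k = r o := by
      intro k
      rcases fin3_cases o k with rfl | rfl | rfl
      · rfl
      · exact h3.symm
      · rw [← hr12, h3]
    rw [h4 i, h4 j]
  have hZX : σ (t (o + 2)) + σ (t o) ≠ 0 := by
    rw [← map_add]
    have h1 := hS (o + 1)
    unfold Sm at h1
    rw [e12, e13] at h1
    exact (map_ne_zero σ).2 h1
  have hd : ‖σ (t (o + 1)) + σ (t (o + 2))‖ ≤ M / (5 * n) := by rw [hTi]; exact ho
  have hsw := swap hodd (X := σ (t o)) (Y := σ (t (o + 1))) (Z := σ (t (o + 2))) (M := M)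
    ((map_ne_zero σ).2 (ht _)) ((map_ne_zero σ).2 (ht _)) (hFσ o) (hmax o) hd hZX
    (by
      have h3 := hTi (o + 1)
      have h4 := hTi (o + 2)
      rw [e12, e13] at h3
      rw [e23, e24] at h4
      rw [h3, h4, hT12])
  have hto : σ (t o) ≠ 0 := (map_ne_zero σ).2 (ht o)
  have hconj : s (t (o + 1) / t o) = t (o + 2) / t o := by
    apply (σ : K →+* ℂ).injective
    change σ (s (t (o + 1) / t o)) = σ (t (o + 2) / t o)
    rw [hE.s_eq, hτ, map_div₀ σ, map_div₀ σ]
    exact hsw.1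
  have hγ : σ (t (o + 2) / t o) = conj (σ (t (o + 1) / t o)) := by
    rw [← hconj, hE.s_eq, hτ]
  refine ⟨hr4, o, hconj, hr12, hro, ?_, ?_⟩
  · -- the upper bound for the height
    have h1 := hsw.2
    have h3 := hTi (o + 1)
    rw [e12, e13] at h3
    rw [h3] at h1
    have h2 : 1 + 1 / (4 * (n : ℝ)) ≤ 21 / 20 := by
      have h4 : 1 / (4 * (n : ℝ)) ≤ 1 / 20 := by
        apply one_div_le_one_div_of_le (by norm_num)
        linarith
      linarith
    have h4 : M ≤ T (o + 1) * (21 / 20) := h1.trans (by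
      have := hTpos (o + 1)
      gcongr)
    rw [hheight, ← hrT]
    have h6 : M * M ≤ (T (o + 1) * (21 / 20)) * (T (o + 1) * (21 / 20)) := by gcongr
    have h7 : 0 < T (o + 1) * T (o + 1) := by
      have := hTpos (o + 1)
      positivity
    have h8 : M * M * Hf t ≤ (T (o + 1) * (21 / 20)) * (T (o + 1) * (21 / 20)) * Hf t := by gcongr
    have h9 : 0 < T (o + 1) * T (o + 1) * Hf t := by positivity
    nlinarith
  · -- the position of `t (o + 1) / t o`
    obtain ⟨u, w, hu, eZ, eY, hw, -, -⟩ := near_line hodd (X := σ (t o)) (Y := σ (t (o + 1)))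
      (Z := σ (t (o + 2))) (M := M) ((map_ne_zero σ).2 (ht _)) (hFσ o) (hmax o) hd
    set B := σ (t (o + 1) / t o) with hB
    have hBv : σ (t (o + 1)) = B * σ (t o) := by
      rw [hB, map_div₀]
      field_simp
    have hCv : σ (t (o + 2)) = conj B * σ (t o) := by
      rw [← hγ, map_div₀]
      field_simp
    -- `2 u = (conj B - B) t o`, `2 u w = (B + conj B) t o`
    have h2u : 2 * u = (conj B - B) * σ (t o) := by
      have : 2 * u = σ (t (o + 2)) - σ (t (o + 1)) := by rw [eZ, eY]; ring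
      rw [this, hBv, hCv]
      ring
    have h2w : 2 * (u * w) = (conj B + B) * σ (t o) := by
      have : 2 * (u * w) = σ (t (o + 2)) + σ (t (o + 1)) := by rw [eZ, eY]; ring
      rw [this, hBv, hCv]
      ring
    have c1 : conj B - B = ((-(2 * B.im) : ℝ) : ℂ) * Complex.I := by
      apply Complex.ext
      · simp
      · simp
        ring
    have c2 : conj B + B = ((2 * B.re : ℝ) : ℂ) := by
      apply Complex.ext
      · simp
        ring
      · simp
    have him : B.im ≠ 0 := by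
      intro h0
      rw [c1, h0] at h2u
      simp only [mul_zero, neg_zero, Complex.ofReal_zero, zero_mul] at h2u
      rcases mul_eq_zero.1 h2u with h3 | h3
      · norm_num at h3
      · exact hu h3
    have hre : B.re ≠ 0 := by
      intro h0
      have h3 : σ (Sm t o) = 0 := by
        change σ (t (o + 1) + t (o + 2)) = 0
        rw [map_add, hBv, hCv]
        have : B * σ (t o) + conj B * σ (t o) = (conj B + B) * σ (t o) := by ring
        rw [this, c2, h0]
        simp
      exact (map_ne_zero σ).2 (hS o) h3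
    refine ⟨him, hre, ?_⟩
    have h3 : (conj B - B) * w = conj B + B := by
      apply mul_right_cancel₀ hto
      linear_combination (-w) * h2u + h2w
    rw [c1, c2] at h3
    have h4 := congrArg norm h3
    rw [norm_mul, norm_mul, Complex.norm_I, mul_one, Complex.norm_real, Complex.norm_real,
      Real.norm_eq_abs, Real.norm_eq_abs, abs_neg, abs_mul, abs_mul, abs_two] at h4
    rw [le_div_iff₀ (by positivity)] at hw
    have h5 : 0 < |B.im| := abs_pos.2 him
    have h6 : |B.re| = |B.im| * ‖w‖ := by linarith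
    rw [h6]
    nlinarith

end Pool.Agent.H577.SQ
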