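import Pool.Agent.H577.UQ.Global

set_option autoImplicit false

/-! # Solutions of small height: the norms of the sums of two coordinates are powers -/

namespace Pool.Agent.H577.SQ

open NumberField IsDedekindDomain Pool.Agent.W7.FH Pool.Agent.H577.UQ Height

section place

variable {K : Type} [Field K] [NumberField K]

/-- the prime divisors of the norm of a prime ideal are in the ideal -/
lemma prime_dvd_nrm (v : FinitePlace K) {l : ℕ} (hl : l.Prime) (h : l ∣ nrm v) :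
    v (l : K) < 1 := by
  set P := v.maximalIdeal.asIdeal with hP
  have hmax : P.IsMaximal := v.maximalIdeal.isMaximal
  let _ : Field (𝓞 K ⧸ P) := Ideal.Quotient.field P
  have hfin : Finite (𝓞 K ⧸ P) := Ideal.finiteQuotientOfFreeOfNeBot P v.maximalIdeal.ne_bot
  let _ : Fintype (𝓞 K ⧸ P) := Fintype.ofFinite _
  obtain ⟨q, hq, m, hqp, hcard⟩ := FiniteField.card' (𝓞 K ⧸ P)
  have h1 : nrm v = q ^ (m : ℕ) := by
    rw [← hcard, ← Nat.card_eq_fintype_card]
    rfl
  rw [h1] at h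
  have h2 : l = q := (Nat.prime_dvd_prime_iff_eq hl hqp).1 (hl.dvd_of_dvd_pow h)
  have h3 : ((l : ℕ) : 𝓞 K ⧸ P) = 0 := by
    rw [h2]
    exact CharP.cast_eq_zero _ q
  have h4 : ((l : ℕ) : 𝓞 K) ∈ P := by
    rw [← Ideal.Quotient.eq_zero_iff_mem, map_natCast]
    exact h3
  rw [hP, ← FinitePlace.norm_lt_one_iff_mem K, map_natCast, FinitePlace.norm_embedding_eq] at h4
  exact h4

/-- what happens at a finite place -/
def Loc (v : FinitePlace K) (n : ℕ) (a b c : K) (ρ : ℕ) : Prop :=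
  1 ≤ ρ ∧ v (a + b) * (ρ : ℝ) ^ n = mx v a b c ∧ (∀ N : ℕ, ρ ∣ N → v (N : K) * (ρ : ℝ) ≤ 1) ∧
    (∀ l : ℕ, l.Prime → l ∣ ρ → v (l : K) < 1) ∧
    (ρ = 1 ∨ (v c < mx v a b c ∧ v a = mx v a b c ∧ v b = mx v a b c))

lemma loc_exists (hK : Module.finrank ℚ K = 2) {n : ℕ} (h5 : 5 ≤ n) (h6 : Nat.Coprime n 6)
    {a b c : K} (ha : a ≠ 0) (hb : b ≠ 0) (hc : c ≠ 0) (h : a ^ n + b ^ n + c ^ n = 0)
    (hH : 4 * mulHeight ![a, b, c] * n ^ 2 < (n.minFac : ℝ) ^ n) (v : FinitePlace K) :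
    ∃ ρ : ℕ, Loc v n a b c ρ := by
  have hm : ∀ p : ℕ, p.Prime → p ∣ n → Module.finrank ℚ K + 1 < p := by
    rw [hK]; exact prime_gt_three h6
  have hodd : Odd n := odd_of_big Module.finrank_pos hm
  by_cases hlt : v (a + b) < mx v a b c
  swap
  · refine ⟨1, le_rfl, ?_, ?_, ?_, Or.inl rfl⟩
    · rw [Nat.cast_one, one_pow, mul_one]
      refine le_antisymm ?_ (not_lt.1 hlt)
      exact (FinitePlace.add_le v a b).trans (max_le (le_mx1 v a b c) (le_mx2 v a b c))
    · intro N _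
      rw [Nat.cast_one, mul_one]
      exact natCast_le_one v _
    · intro l hl h1
      exact absurd (Nat.dvd_one.1 h1) hl.one_lt.ne'
  obtain ⟨h1, h2, h3, h4, h5'⟩ := core v (by omega) hm hb h hlt
  have hcb : c / b ≠ 0 := div_ne_zero hc hb
  have hvc0 : 0 < v (c / b) := FinitePlace.pos_iff.mpr hcb
  have hab : (a + b) / b ≠ 0 := div_ne_zero (add_ne_zero_of_fermat hodd hc h) hb
  have hvu0 : 0 < v ((a + b) / b) := FinitePlace.pos_iff.mpr hab
  have hn' : (n : K) ≠ 0 := by exact_mod_cast (by omega : n ≠ 0)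
  have hvn0 : 0 < v (n : K) := FinitePlace.pos_iff.mpr hn'
  have hvb : 0 < v b := FinitePlace.pos_iff.mpr hb
  have hnR : (0 : ℝ) < n := by exact_mod_cast (by omega : 0 < n)
  -- `n` is a unit
  have hvn : v (n : K) = 1 := by
    by_contra hne
    have h7 : v (n : K) < 1 := lt_of_le_of_ne (natCast_le_one v n) hne
    obtain ⟨p, hp, hpn, hvp⟩ := exists_prime_of_lt v n (by omega) h7
    have h8 := nrm_ge v hp hvp
    have h9 : n.minFac ≤ nrm v := (Nat.minFac_le_of_dvd hp.two_le hpn).trans h8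
    have hmf : 0 < (n.minFac : ℝ) := by exact_mod_cast Nat.minFac_pos n
    have h10 : v (c / b) ≤ ((n.minFac : ℕ) : ℝ)⁻¹ := (le_inv_nrm v h3).trans (by
      apply inv_anti₀ hmf
      exact_mod_cast h9)
    have hge := prime_ge v (p := n) (by omega)
    rw [hK] at hge
    have h11 : v ((a + b) / b) ≤ (n : ℝ) ^ 2 * v (c / b) ^ n := by
      rw [h5', ← mul_assoc]
      have h12 : 1 ≤ (n : ℝ) ^ 2 * v (n : K) := by
        have := mul_le_mul_of_nonneg_left hge (show (0 : ℝ) ≤ (n : ℝ) ^ 2 by positivity)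
        rwa [mul_inv_cancel₀ (by positivity)] at this
      exact le_mul_of_one_le_left hvu0.le h12
    have h12 : v ((a + b) / b) ≤ (n : ℝ) ^ 2 * ((n.minFac : ℝ) ^ n)⁻¹ := by
      refine h11.trans ?_
      rw [← inv_pow]
      gcongr
    have h13 : (n.minFac : ℝ) ^ n / (n : ℝ) ^ 2 * v (a + b) ≤ max (max (v a) (v b)) (v c) := by
      change _ ≤ mx v a b c
      rw [h2]
      have h14 : v (a + b) = v ((a + b) / b) * v b := by
        rw [map_div₀]
        field_simp
      rw [h14, ← mul_assoc]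
      have h15 : (n.minFac : ℝ) ^ n / (n : ℝ) ^ 2 * v ((a + b) / b) ≤ 1 := by
        calc (n.minFac : ℝ) ^ n / (n : ℝ) ^ 2 * v ((a + b) / b) ≤
              (n.minFac : ℝ) ^ n / (n : ℝ) ^ 2 * ((n : ℝ) ^ 2 * ((n.minFac : ℝ) ^ n)⁻¹) := by gcongr
          _ = 1 := by
            field_simp
      calc _ ≤ 1 * v b := mul_le_mul_of_nonneg_right h15 hvb.le
        _ = v b := one_mul _
    have h14 := height_ge ha hb hc (add_ne_zero_of_fermat hodd hc h) v (by positivity) h13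
    rw [hK, div_le_iff₀ (by positivity)] at h14
    norm_num at h14
    linarith
  rw [hvn, one_mul] at h5'
  obtain ⟨j, hj, hj1⟩ := value_eq v hcb h3
  have hN := one_lt_nrm' v
  refine ⟨nrm v ^ j, Nat.one_le_pow _ _ (by have := one_lt_nrm v; omega), ?_, ?_, ?_, Or.inr ?_⟩
  · have h7 : v (a + b) = v ((a + b) / b) * v b := by
      rw [map_div₀]
      field_simp
    rw [h2, h7, ← h5']
    push_cast
    calc v (c / b) ^ n * v b * ((nrm v : ℝ) ^ j) ^ n = (v (c / b) * (nrm v : ℝ) ^ j) ^ n * v b := by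
          rw [mul_pow]; ring
      _ = v b := by rw [hj1, one_pow, one_mul]
  · rintro N ⟨M, rfl⟩
    push_cast
    rw [map_mul, map_pow]
    have h7 : v (nrm v : K) ≤ (nrm v : ℝ)⁻¹ := by
      apply le_inv_nrm
      have h8 : ((nrm v : ℕ) : 𝓞 K) ∈ v.maximalIdeal.asIdeal := Ideal.absNorm_mem _
      rw [← FinitePlace.norm_lt_one_iff_mem K, map_natCast, FinitePlace.norm_embedding_eq] at h8
      exact h8
    calc v (nrm v : K) ^ j * v (M : K) * (nrm v : ℝ) ^ j ≤
          ((nrm v : ℝ)⁻¹) ^ j * 1 * (nrm v : ℝ) ^ j := by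
          gcongr
          exact natCast_le_one v M
      _ = 1 := by
        rw [mul_one, ← mul_pow, inv_mul_cancel₀ (by positivity), one_pow]
  · intro l hl h7
    exact prime_dvd_nrm v hl (hl.dvd_of_dvd_pow h7)
  · rw [h2]
    refine ⟨?_, h1, rfl⟩
    rw [map_div₀, div_lt_one hvb] at h3
    exact h3

end place

/-- the product of the maxima at the finite places -/
noncomputable def Hf {K : Type} [Field K] [NumberField K] (t : Fin 3 → K) : ℝ :=
  ∏ᶠ v : FinitePlace K, mx v (t 0) (t 1) (t 2)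

/-- a prime number splits -/
def Splits (K : Type) [Field K] [NumberField K] (l : ℕ) : Prop :=
  ∃ P Q : Ideal (𝓞 K), P.IsPrime ∧ Q.IsPrime ∧ P ≠ Q ∧ (l : 𝓞 K) ∈ P ∧ (l : 𝓞 K) ∈ Q

lemma mulHeight_cyc {K : Type} [Field K] [NumberField K] (t : Fin 3 → K) (i : Fin 3) :
    mulHeight ![t (i + 1), t (i + 2), t i] = mulHeight ![t 0, t 1, t 2] := by
  fin_cases i
  · exact mulHeight_rot _ _ _
  · change mulHeight ![t 2, t 0, t 1] = _
    rw [mulHeight_rot (t 1) (t 2) (t 0), mulHeight_rot (t 0) (t 1) (t 2)]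
  · rfl

theorem norms (K : Type) [Field K] [NumberField K] (hK : Module.finrank ℚ K = 2) {n : ℕ}
    (h5 : 5 ≤ n) (h6 : Nat.Coprime n 6) (t : Fin 3 → K) (ht : ∀ i, t i ≠ 0)
    (hF : (t 0) ^ n + (t 1) ^ n + (t 2) ^ n = 0)
    (hH : 4 * mulHeight ![t 0, t 1, t 2] * n ^ 2 < (n.minFac : ℝ) ^ n) :
    ∃ r : Fin 3 → ℕ, 0 < Hf t ∧
      (∀ i, 1 ≤ r i ∧ ((|Algebra.norm ℚ (Sm t i)| : ℚ) : ℝ) * Hf t = (r i : ℝ) ^ n) ∧
      ((∀ i j, r i = r j) → UnitCase (t 0) (t 1) (t 2)) ∧
      (∀ i j, i ≠ j → r i = r j → ∀ l : ℕ, l.Prime → l ∣ r i → Splits K l) := by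
  classical
  have hm : ∀ p : ℕ, p.Prime → p ∣ n → Module.finrank ℚ K + 1 < p := by
    rw [hK]; exact prime_gt_three h6
  have hodd : Odd n := odd_of_big Module.finrank_pos hm
  have hFi : ∀ i, (t (i + 1)) ^ n + (t (i + 2)) ^ n + (t i) ^ n = 0 := by
    intro i
    fin_cases i
    · change (t 1) ^ n + (t 2) ^ n + (t 0) ^ n = 0
      linear_combination hF
    · change (t 2) ^ n + (t 0) ^ n + (t 1) ^ n = 0
      linear_combination hF
    · change (t 0) ^ n + (t 1) ^ n + (t 2) ^ n = 0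
      exact hF
  have hS : ∀ i, Sm t i ≠ 0 := fun i => add_ne_zero_of_fermat hodd (ht i) (hFi i)
  have hloc : ∀ i (v : FinitePlace K), ∃ ρ : ℕ, Loc v n (t (i + 1)) (t (i + 2)) (t i) ρ := by
    intro i v
    exact loc_exists hK h5 h6 (ht _) (ht _) (ht _) (hFi i) (by rw [mulHeight_cyc]; exact hH) v
  choose ρ hρ using hloc
  -- the common support
  set T : Finset (FinitePlace K) :=
    (Finset.univ.biUnion fun i => (FinitePlace.hasFiniteMulSupport (ht i)).toFinset) ∪
    (Finset.univ.biUnion fun i => (FinitePlace.hasFiniteMulSupport (hS i)).toFinset) with hT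
  have hTt : ∀ v ∉ T, ∀ i, v (t i) = 1 := by
    intro v hv i
    rw [hT, Finset.mem_union, not_or] at hv
    by_contra h1
    apply hv.1
    rw [Finset.mem_biUnion]
    exact ⟨i, Finset.mem_univ _, (Set.Finite.mem_toFinset _).2 h1⟩
  have hTS : ∀ v ∉ T, ∀ i, v (Sm t i) = 1 := by
    intro v hv i
    rw [hT, Finset.mem_union, not_or] at hv
    by_contra h1
    apply hv.2
    rw [Finset.mem_biUnion]
    exact ⟨i, Finset.mem_univ _, (Set.Finite.mem_toFinset _).2 h1⟩
  have hmx0 : ∀ v : FinitePlace K, 0 < mx v (t 0) (t 1) (t 2) := fun v =>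
    (FinitePlace.pos_iff.mpr (ht 0)).trans_le (le_mx1 v _ _ _)
  have hHT : Hf t = ∏ v ∈ T, mx v (t 0) (t 1) (t 2) := by
    unfold Hf
    apply finprod_eq_prod_of_mulSupport_subset
    intro v hv
    by_contra h1
    apply hv
    change mx v (t 0) (t 1) (t 2) = 1
    have h2 : v ∉ T := h1
    unfold mx
    rw [hTt v h2, hTt v h2, hTt v h2]
    simp
  have hH0 : 0 < Hf t := by
    rw [hHT]
    exact Finset.prod_pos fun v _ => hmx0 v
  have hnorm : ∀ i, 0 < ((|Algebra.norm ℚ (Sm t i)| : ℚ) : ℝ) := by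
    intro i
    have h1 : Algebra.norm ℚ (Sm t i) ≠ 0 := by
      rw [Ne, Algebra.norm_eq_zero_iff]
      exact hS i
    exact_mod_cast abs_pos.2 h1
  have hrel : ∀ i, ((|Algebra.norm ℚ (Sm t i)| : ℚ) : ℝ) * Hf t =
      ((∏ v ∈ T, ρ i v : ℕ) : ℝ) ^ n := by
    intro i
    have h1 : Hf t = (∏ v ∈ T, v (Sm t i)) * ((∏ v ∈ T, ρ i v : ℕ) : ℝ) ^ n := by
      rw [hHT]
      push_cast
      rw [← Finset.prod_pow, ← Finset.prod_mul_distrib]
      refine Finset.prod_congr rfl fun v _ => ?_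
      rw [← mx_cyc v t i]
      exact (hρ i v).2.1.symm
    rw [h1, prodT (hS i) (fun v hv => hTS v hv i), ← mul_assoc,
      mul_inv_cancel₀ (hnorm i).ne', one_mul]
  have hone : ∀ i, 1 ≤ ∏ v ∈ T, ρ i v := by
    intro i
    exact Finset.one_le_prod' fun v _ => (hρ i v).1
  have hbig : ∀ v : FinitePlace K, ∀ i, ρ i v ≠ 1 → v (t i) < mx v (t 0) (t 1) (t 2) ∧
      v (t (i + 1)) = mx v (t 0) (t 1) (t 2) ∧ v (t (i + 2)) = mx v (t 0) (t 1) (t 2) := by
    intro v i h1
    have h2 := (hρ i v).2.2.2.2.resolve_left h1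
    rw [mx_cyc v t i] at h2
    exact h2
  -- at most one of the numbers is different from one
  have honly : ∀ v : FinitePlace K, ∀ i j, i ≠ j → ρ i v ≠ 1 → ρ j v = 1 := by
    intro v i j hij h1
    by_contra h2
    have h3 := hbig v i h1
    have h4 := hbig v j h2
    have h5 : i = j + 1 ∨ i = j + 2 := by
      clear * - hij
      revert i j
      decide
    rcases h5 with rfl | rfl
    · exact absurd h4.2.1 h3.1.ne
    · exact absurd h4.2.2 h3.1.ne
  refine ⟨fun i => ∏ v ∈ T, ρ i v, hH0, fun i => ⟨hone i, hrel i⟩, ?_, ?_⟩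
  · -- the case of equality
    intro heq
    set q : ℕ := ∏ v ∈ T, ρ 0 v with hq
    have hq1 : 1 ≤ q := hone 0
    have hqi : ∀ i, ∏ v ∈ T, ρ i v = q := fun i => heq i 0
    have hout : ∀ v ∉ T, ∀ i, ρ i v = 1 := by
      intro v hv i
      by_contra h1
      have h2 := hbig v i h1
      rw [hTt v hv, ← h2.2.1, hTt v hv] at h2
      exact lt_irrefl _ h2.1
    have hle : ∀ v ∈ T, v (q : K) * (((ρ 0 v : ℝ) * ρ 1 v) * ρ 2 v) ≤ 1 := by
      intro v hv
      have h1 : ∀ i, v (q : K) * (ρ i v : ℝ) ≤ 1 := by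
        intro i
        apply (hρ i v).2.2.1
        rw [← hqi i]
        exact Finset.dvd_prod_of_mem _ hv
      by_cases e0 : ρ 0 v = 1
      · by_cases e1 : ρ 1 v = 1
        · rw [e0, e1]
          simpa using h1 2
        · rw [e0, honly v 1 2 (by decide) e1]
          simpa using h1 1
      · rw [honly v 0 1 (by decide) e0, honly v 0 2 (by decide) e0]
        simpa using h1 0
    have hprod : (∏ v ∈ T, v (q : K)) * (q : ℝ) ^ 3 ≤ 1 := by
      have h1 : (q : ℝ) ^ 3 = ∏ v ∈ T, (((ρ 0 v : ℝ) * ρ 1 v) * ρ 2 v) := by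
        have h2 : ∀ i, (q : ℝ) = ∏ v ∈ T, (ρ i v : ℝ) := by
          intro i
          rw [← hqi i]
          push_cast
          rfl
        rw [Finset.prod_mul_distrib, Finset.prod_mul_distrib, ← h2 0, ← h2 1, ← h2 2]
        ring
      rw [h1, ← Finset.prod_mul_distrib]
      refine Finset.prod_le_one (fun v _ => ?_) hle
      have : (0 : ℝ) ≤ v (q : K) := apply_nonneg _ _
      positivity
    have hqK : ((q : ℤ) : K) ≠ 0 := by
      have : q ≠ 0 := by omega
      exact_mod_cast this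
    have h2 := prodT_ge (T := T) hqK (fun v => intCast_le_one v _)
    rw [norm_int hK] at h2
    push_cast at h2
    have hqR : (0 : ℝ) < q := by exact_mod_cast (by omega : 0 < q)
    have h3 : ((q : ℝ) ^ 2)⁻¹ * (q : ℝ) ^ 3 ≤ 1 :=
      (mul_le_mul_of_nonneg_right h2 (by positivity)).trans hprod
    have h4 : ((q : ℝ) ^ 2)⁻¹ * (q : ℝ) ^ 3 = q := by
      field_simp
    rw [h4] at h3
    have h5 : q = 1 := by
      have : q ≤ 1 := by exact_mod_cast h3
      omega
    have h6 : ∀ i (v : FinitePlace K), ρ i v = 1 := by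
      intro i v
      by_cases hv : v ∈ T
      · have h7 : ρ i v ∣ ∏ v ∈ T, ρ i v := Finset.dvd_prod_of_mem _ hv
        rw [hqi i, h5] at h7
        exact Nat.dvd_one.1 h7
      · exact hout v hv i
    have h7 : ∀ i (v : FinitePlace K), v (Sm t i) = mx v (t 0) (t 1) (t 2) := by
      intro i v
      have h8 := (hρ i v).2.1
      rw [h6, Nat.cast_one, one_pow, mul_one, mx_cyc] at h8
      exact h8
    intro v
    exact ⟨h7 2 v, h7 0 v, h7 1 v⟩
  · -- splitting
    intro i j hij heq l hl hdvd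
    have h1 : ∀ k, l ∣ ∏ v ∈ T, ρ k v → ∃ v : FinitePlace K, ρ k v ≠ 1 ∧ v (l : K) < 1 := by
      intro k hk
      obtain ⟨v, -, hv⟩ := (Prime.dvd_finsetProd_iff hl.prime _).1 hk
      refine ⟨v, fun h2 => ?_, (hρ k v).2.2.2.1 l hl hv⟩
      rw [h2] at hv
      exact hl.one_lt.ne' (Nat.dvd_one.1 hv)
    simp only at heq hdvd
    obtain ⟨v, hv1, hv2⟩ := h1 i hdvd
    obtain ⟨w, hw1, hw2⟩ := h1 j (by rw [← heq]; exact hdvd)
    have hvw : v ≠ w := by
      rintro rfl
      exact hw1 (honly v i j hij hv1)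
    have hmem : ∀ v : FinitePlace K, v (l : K) < 1 → (l : 𝓞 K) ∈ v.maximalIdeal.asIdeal := by
      intro v hv
      rw [← FinitePlace.norm_lt_one_iff_mem K, map_natCast, FinitePlace.norm_embedding_eq]
      exact hv
    refine ⟨v.maximalIdeal.asIdeal, w.maximalIdeal.asIdeal, v.maximalIdeal.isPrime,
      w.maximalIdeal.isPrime, fun h2 => hvw ?_, hmem v hv2, hmem w hw2⟩
    have h3 : v.maximalIdeal = w.maximalIdeal := HeightOneSpectrum.ext h2
    rw [← FinitePlace.mk_maximalIdeal v, ← FinitePlace.mk_maximalIdeal w, h3]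

end Pool.Agent.H577.SQ
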