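import Pool.Agent.H577.UQ.Arch

set_option autoImplicit false

/-! # Complex solutions of Fermat's equation with two sums of the same absolute value -/

namespace Pool.Agent.H577.SQ

open Pool.Agent.H577.UQ ComplexConjugate

/-- `(1 + δ) ^ m - 1` -/
lemma real_pow_near {δ : ℝ} (hδ : 0 ≤ δ) {m : ℕ} (h : m * δ ≤ 1 / 4) :
    (1 + δ) ^ m - 1 ≤ 5 / 16 := by
  have h1 : (1 + δ) ^ m ≤ Real.exp (m * δ) := by
    rw [Real.exp_nat_mul]
    apply pow_le_pow_left₀ (by positivity)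
    have := Real.add_one_le_exp δ
    linarith
  have h0 : 0 ≤ m * δ := by positivity
  have h2 := Real.abs_exp_sub_one_sub_id_le (x := m * δ) (by rw [abs_of_nonneg h0]; linarith)
  have h3 := (abs_le.1 h2).2
  nlinarith

lemma one_add_pow_sub_one (w : ℂ) (m : ℕ) : ‖(1 + w) ^ m - 1‖ ≤ (1 + ‖w‖) ^ m - 1 := by
  induction m with
  | zero => simp
  | succ m ih =>
    have h1 : (1 + w) ^ (m + 1) - 1 = (1 + w) * ((1 + w) ^ m - 1) + w := by ring
    have h2 : (1 + ‖w‖) ^ (m + 1) - 1 = (1 + ‖w‖) * ((1 + ‖w‖) ^ m - 1) + ‖w‖ := by ring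
    rw [h1, h2]
    refine (norm_add_le _ _).trans ?_
    rw [norm_mul]
    have h3 : ‖1 + w‖ ≤ 1 + ‖w‖ := by
      have := norm_add_le 1 w
      rwa [norm_one] at this
    have h4 := mul_le_mul h3 ih (norm_nonneg _) (by positivity)
    linarith

lemma two_pow_sub_one {w z : ℂ} {δ : ℝ} (hw : ‖w‖ ≤ δ) (hz : ‖z‖ ≤ δ) (j k : ℕ) :
    ‖(1 + w) ^ j * (1 + z) ^ k - 1‖ ≤ (1 + δ) ^ (j + k) - 1 := by
  have hδ : 0 ≤ δ := (norm_nonneg _).trans hw
  have h1 : (1 + w) ^ j * (1 + z) ^ k - 1 = ((1 + w) ^ j - 1) * (1 + z) ^ k + ((1 + z) ^ k - 1) := by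
    ring
  rw [h1]
  refine (norm_add_le _ _).trans ?_
  rw [norm_mul, norm_pow]
  have h2 : ‖(1 + w) ^ j - 1‖ ≤ (1 + δ) ^ j - 1 := (one_add_pow_sub_one w j).trans (by gcongr)
  have h3 : ‖(1 + z) ^ k - 1‖ ≤ (1 + δ) ^ k - 1 := (one_add_pow_sub_one z k).trans (by gcongr)
  have h4 : ‖1 + z‖ ≤ 1 + δ := by
    have := norm_add_le 1 z
    rw [norm_one] at this
    linarith
  have h5 : ‖1 + z‖ ^ k ≤ (1 + δ) ^ k := by gcongr
  have h6 := mul_le_mul h2 h5 (by positivity) ((norm_nonneg _).trans h2)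
  calc _ ≤ ((1 + δ) ^ j - 1) * (1 + δ) ^ k + ((1 + δ) ^ k - 1) := add_le_add h6 h3
    _ = _ := by ring

/-- the sum of the products of powers -/
lemma sum_pow_near {w z : ℂ} {n : ℕ} (hn : 1 ≤ n) (hw : ‖w‖ ≤ 1 / (4 * n)) (hz : ‖z‖ ≤ 1 / (4 * n)) :
    ‖(∑ j ∈ Finset.range n, (1 + w) ^ j * (1 + z) ^ (n - 1 - j)) - n‖ ≤ 5 / 16 * n := by
  have hnR : (0 : ℝ) < n := by exact_mod_cast hn
  have h1 : (∑ j ∈ Finset.range n, (1 + w) ^ j * (1 + z) ^ (n - 1 - j)) - (n : ℂ) =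
      ∑ j ∈ Finset.range n, ((1 + w) ^ j * (1 + z) ^ (n - 1 - j) - 1) := by
    rw [Finset.sum_sub_distrib]
    simp
  rw [h1]
  calc _ ≤ ∑ j ∈ Finset.range n, (5 / 16 : ℝ) := by
        apply norm_sum_le_of_le
        intro j hj
        rw [Finset.mem_range] at hj
        refine (two_pow_sub_one hw hz _ _).trans ?_
        apply real_pow_near (by positivity)
        have h2 : j + (n - 1 - j) ≤ n := by omega
        have h3 : ((j + (n - 1 - j) : ℕ) : ℝ) ≤ n := by exact_mod_cast h2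
        calc ((j + (n - 1 - j) : ℕ) : ℝ) * (1 / (4 * n)) ≤ n * (1 / (4 * n)) := by gcongr
          _ = 1 / 4 := by field_simp
    _ = 5 / 16 * n := by
      rw [Finset.sum_const, Finset.card_range, nsmul_eq_mul]
      ring

/-- the data of a solution near the line `Y + Z = 0` -/
lemma near_line {n : ℕ} (hn : Odd n) {X Y Z : ℂ} (hY : Y ≠ 0)
    (h : X ^ n + Y ^ n + Z ^ n = 0) {M : ℝ} (hM : M ≤ max (max ‖X‖ ‖Y‖) ‖Z‖)
    (hd : ‖Y + Z‖ ≤ M / (5 * n)) :
    ∃ u w : ℂ, u ≠ 0 ∧ Z = u * (1 + w) ∧ Y = -u * (1 - w) ∧ ‖w‖ ≤ 1 / (4 * n) ∧ ‖X‖ ≤ ‖u‖ ∧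
      M ≤ ‖u‖ * (1 + 1 / (4 * n)) := by
  have hn1 : 1 ≤ n := hn.pos
  have hnR : (1 : ℝ) ≤ n := by exact_mod_cast hn1
  set d := Y + Z with hdd
  set u := (Z - Y) / 2 with hu
  have eZ : Z = u + d / 2 := by rw [hu, hdd]; ring
  have eY : Y = -u + d / 2 := by rw [hu, hdd]; ring
  have nZ : ‖Z‖ ≤ ‖u‖ + ‖d‖ / 2 := by
    rw [eZ]
    refine (norm_add_le _ _).trans ?_
    rw [norm_div]
    simp
  have nY : ‖Y‖ ≤ ‖u‖ + ‖d‖ / 2 := by
    rw [eY]
    refine (norm_add_le _ _).trans ?_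
    rw [norm_div, norm_neg]
    simp
  have nX : ‖X‖ ≤ 2 * (‖u‖ + ‖d‖ / 2) := by
    have h6 : X ^ n = -(Y ^ n + Z ^ n) := by linear_combination h
    have h7 : ‖X‖ ^ n ≤ (2 * (‖u‖ + ‖d‖ / 2)) ^ n := by
      rw [← norm_pow, h6, norm_neg]
      refine (norm_add_le _ _).trans ?_
      rw [norm_pow, norm_pow, mul_pow]
      have h8 : ‖Y‖ ^ n ≤ (‖u‖ + ‖d‖ / 2) ^ n := by gcongr
      have h9 : ‖Z‖ ^ n ≤ (‖u‖ + ‖d‖ / 2) ^ n := by gcongr
      have h10 : (2 : ℝ) ≤ 2 ^ n := by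
        calc (2 : ℝ) = 2 ^ 1 := by norm_num
          _ ≤ 2 ^ n := pow_le_pow_right₀ (by norm_num) hn1
      have h11 : 0 ≤ (‖u‖ + ‖d‖ / 2) ^ n := by positivity
      nlinarith
    exact le_of_pow_le_pow_left₀ (by omega) (by positivity) h7
  have hM1 : M ≤ 2 * ‖u‖ + ‖d‖ := by
    refine hM.trans (max_le (max_le ?_ ?_) ?_)
    · linarith
    · have := norm_nonneg u
      have := norm_nonneg d
      linarith
    · have := norm_nonneg u
      have := norm_nonneg d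
      linarith
  have hd1 : ‖d‖ ≤ ‖u‖ / (2 * n) := by
    rw [le_div_iff₀ (by positivity)] at hd ⊢
    have h1 := norm_nonneg d
    nlinarith
  have hu0 : u ≠ 0 := by
    intro h0
    rw [h0, norm_zero, zero_div] at hd1
    have h1 : d = 0 := norm_le_zero_iff.1 hd1
    rw [h0, h1] at eY
    exact hY (by rw [eY]; ring)
  have hup : 0 < ‖u‖ := norm_pos_iff.2 hu0
  have hw : ‖d / (2 * u)‖ ≤ 1 / (4 * n) := by
    have h2 : ‖(2 : ℂ)‖ = 2 := by simp
    rw [norm_div, norm_mul, h2, div_le_div_iff₀ (by positivity) (by positivity)]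
    rw [le_div_iff₀ (by positivity)] at hd1
    linarith
  refine ⟨u, d / (2 * u), hu0, ?_, ?_, hw, ?_, ?_⟩
  · rw [eZ]
    field_simp
  · rw [eY]
    field_simp
    ring
  · -- `|X| ≤ |u|`
    have e1 : Z = u * (1 + d / (2 * u)) := by
      rw [eZ]
      field_simp
    have e2 : Y = -(u * (1 + -(d / (2 * u)))) := by
      rw [eY]
      field_simp
      ring
    have h6 : X ^ n = -(u ^ n * (((1 + d / (2 * u)) ^ n - 1) - ((1 + -(d / (2 * u))) ^ n - 1))) := by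
      have h7 : X ^ n = -(Y ^ n + Z ^ n) := by linear_combination h
      rw [h7, e1, e2, hn.neg_pow, mul_pow, mul_pow]
      ring
    have h7 : ‖X‖ ^ n ≤ ‖u‖ ^ n := by
      rw [← norm_pow, h6, norm_neg, norm_mul, norm_pow]
      have h8 : ‖((1 + d / (2 * u)) ^ n - 1) - ((1 + -(d / (2 * u))) ^ n - 1)‖ ≤ 1 := by
        refine (norm_sub_le _ _).trans ?_
        have h9 : ∀ w : ℂ, ‖w‖ ≤ 1 / (4 * n) → ‖(1 + w) ^ n - 1‖ ≤ 5 / 16 := by
          intro w hw
          refine (one_add_pow_sub_one w n).trans ?_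
          apply real_pow_near (norm_nonneg _)
          calc (n : ℝ) * ‖w‖ ≤ n * (1 / (4 * n)) := by gcongr
            _ = 1 / 4 := by field_simp
        have h10 := h9 _ hw
        have h11 := h9 (-(d / (2 * u))) (by rw [norm_neg]; exact hw)
        linarith
      calc _ ≤ ‖u‖ ^ n * 1 := by gcongr
        _ = ‖u‖ ^ n := mul_one _
    exact le_of_pow_le_pow_left₀ (by omega) (by positivity) h7
  · -- the bound for `M`
    have h1 : ‖X‖ ≤ ‖u‖ + ‖d‖ / 2 := by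
      have e1 : Z = u * (1 + d / (2 * u)) := by
        rw [eZ]
        field_simp
      have e2 : Y = -(u * (1 + -(d / (2 * u)))) := by
        rw [eY]
        field_simp
        ring
      have h6 : X ^ n = -(u ^ n * (((1 + d / (2 * u)) ^ n - 1) - ((1 + -(d / (2 * u))) ^ n - 1))) := by
        have h7 : X ^ n = -(Y ^ n + Z ^ n) := by linear_combination h
        rw [h7, e1, e2, hn.neg_pow, mul_pow, mul_pow]
        ring
      have h7 : ‖X‖ ^ n ≤ ‖u‖ ^ n := by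
        rw [← norm_pow, h6, norm_neg, norm_mul, norm_pow]
        have h8 : ‖((1 + d / (2 * u)) ^ n - 1) - ((1 + -(d / (2 * u))) ^ n - 1)‖ ≤ 1 := by
          refine (norm_sub_le _ _).trans ?_
          have h9 : ∀ w : ℂ, ‖w‖ ≤ 1 / (4 * n) → ‖(1 + w) ^ n - 1‖ ≤ 5 / 16 := by
            intro w hw
            refine (one_add_pow_sub_one w n).trans ?_
            apply real_pow_near (norm_nonneg _)
            calc (n : ℝ) * ‖w‖ ≤ n * (1 / (4 * n)) := by gcongr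
              _ = 1 / 4 := by field_simp
          have h10 := h9 _ hw
          have h11 := h9 (-(d / (2 * u))) (by rw [norm_neg]; exact hw)
          linarith
        calc _ ≤ ‖u‖ ^ n * 1 := by gcongr
          _ = ‖u‖ ^ n := mul_one _
      have h8 : ‖X‖ ≤ ‖u‖ := le_of_pow_le_pow_left₀ (by omega) (by positivity) h7
      have := norm_nonneg d
      linarith
    have h2 : M ≤ ‖u‖ + ‖d‖ / 2 := hM.trans (max_le (max_le h1 nY) nZ)
    refine h2.trans ?_
    have h3 : ‖u‖ * (1 + 1 / (4 * n)) = ‖u‖ + ‖u‖ / (2 * n) / 2 := by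
      field_simp
      ring
    rw [h3]
    linarith

/-- two sums cannot be small -/
lemma not_both {n : ℕ} (hn : Odd n) {X Y Z : ℂ} (hX : X ≠ 0) (hY : Y ≠ 0)
    (h : X ^ n + Y ^ n + Z ^ n = 0) {M : ℝ} (hM : M ≤ max (max ‖X‖ ‖Y‖) ‖Z‖)
    (h1 : ‖Y + Z‖ ≤ M / (5 * n)) (h2 : ‖Z + X‖ ≤ M / (5 * n)) : False := by
  have hn1 : 1 ≤ n := hn.pos
  have hnR : (1 : ℝ) ≤ n := by exact_mod_cast hn1
  obtain ⟨u, w, hu, eZ, eY, hw, -, hMu⟩ := near_line hn hY h hM h1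
  have hM' : M ≤ max (max ‖Y‖ ‖X‖) ‖Z‖ := by rw [max_comm ‖Y‖]; exact hM
  have h2' : ‖X + Z‖ ≤ M / (5 * n) := by rw [add_comm]; exact h2
  obtain ⟨u', w', hu', eZ', eX, hw', -, hMu'⟩ := near_line (X := Y) (Y := X) (Z := Z) (M := M) hn hX
    (by linear_combination h) hM' h2'
  have hZn : Z ^ n ≠ 0 := by
    apply pow_ne_zero
    rw [eZ]
    apply mul_ne_zero hu
    intro h0
    have h3 : w = -1 := by linear_combination h0
    rw [h3, norm_neg, norm_one, le_div_iff₀ (by positivity)] at hw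
    linarith
  have h9 : ∀ w : ℂ, ‖w‖ ≤ 1 / (4 * n) → ‖(1 + w) ^ n - 1‖ ≤ 5 / 16 := by
    intro w hw
    refine (one_add_pow_sub_one w n).trans ?_
    apply real_pow_near (norm_nonneg _)
    calc (n : ℝ) * ‖w‖ ≤ n * (1 / (4 * n)) := by gcongr
      _ = 1 / 4 := by field_simp
  have e1 : Z ^ n = u ^ n * (1 + w) ^ n := by rw [eZ, mul_pow]
  have e2 : Y ^ n = -(u ^ n * (1 + -w) ^ n) := by
    rw [eY, neg_mul, hn.neg_pow, mul_pow, sub_eq_add_neg]
  have e3 : Z ^ n = u' ^ n * (1 + w') ^ n := by rw [eZ', mul_pow]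
  have e4 : X ^ n = -(u' ^ n * (1 + -w') ^ n) := by
    rw [eX, neg_mul, hn.neg_pow, mul_pow, sub_eq_add_neg]
  have b1 := h9 w hw
  have b2 := h9 (-w) (by rw [norm_neg]; exact hw)
  have b3 := h9 w' hw'
  have b4 := h9 (-w') (by rw [norm_neg]; exact hw')
  set A := (1 + w) ^ n
  set B := (1 + -w) ^ n
  set A' := (1 + w') ^ n
  set B' := (1 + -w') ^ n
  -- `B / A + B' / A' = 1`
  have hA : A ≠ 0 := by
    intro h0
    rw [h0, mul_zero] at e1
    exact hZn e1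
  have hA' : A' ≠ 0 := by
    intro h0
    rw [h0, mul_zero] at e3
    exact hZn e3
  have key : B * A' + B' * A = A * A' := by
    have h3 : Z ^ n * (B * A' + B' * A) = Z ^ n * (A * A') := by
      have h4 : Z ^ n * (B * A') = -Y ^ n * (A * A') := by
        rw [e1, e2]
        ring
      have h5 : Z ^ n * (B' * A) = -X ^ n * (A * A') := by
        rw [e3, e4]
        ring
      rw [mul_add, h4, h5]
      linear_combination (-(A * A')) * h
    exact mul_left_cancel₀ hZn h3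
  -- write `A = 1 + a` etc.
  have hre : ∀ z : ℂ, |z.re| ≤ ‖z‖ := Complex.abs_re_le_norm
  have k : (B - 1) * (A' - 1) + (B' - 1) * (A - 1) + (B - 1) + (B' - 1) + 1 =
      (A - 1) * (A' - 1) := by linear_combination key
  have n1 : ‖(B - 1) * (A' - 1)‖ ≤ 5 / 16 * (5 / 16) := by
    rw [norm_mul]; gcongr
  have n2 : ‖(B' - 1) * (A - 1)‖ ≤ 5 / 16 * (5 / 16) := by
    rw [norm_mul]; gcongr
  have n3 : ‖(A - 1) * (A' - 1)‖ ≤ 5 / 16 * (5 / 16) := by
    rw [norm_mul]; gcongr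
  have k2 : (1 : ℂ) = (A - 1) * (A' - 1) - (B - 1) * (A' - 1) - (B' - 1) * (A - 1) - (B - 1) -
      (B' - 1) := by linear_combination k
  have k3 := congrArg norm k2
  rw [norm_one] at k3
  have k4 : ‖(A - 1) * (A' - 1) - (B - 1) * (A' - 1) - (B' - 1) * (A - 1) - (B - 1) -
      (B' - 1)‖ ≤ 5 / 16 * (5 / 16) + 5 / 16 * (5 / 16) + 5 / 16 * (5 / 16) + 5 / 16 + 5 / 16 := by
    refine (norm_sub_le _ _).trans (add_le_add ?_ b4)
    refine (norm_sub_le _ _).trans (add_le_add ?_ b2)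
    refine (norm_sub_le _ _).trans (add_le_add ?_ n2)
    exact (norm_sub_le _ _).trans (add_le_add n3 n1)
  rw [← k3] at k4
  norm_num at k4

end Pool.Agent.H577.SQ
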