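import Pool.Agent.H577.SQ.Swap

set_option autoImplicit false

/-! # Numerical lemmas -/

namespace Pool.Agent.H577.SQ

lemma gap {n Q r : ℕ} (hn : 1 ≤ n) (hQ : (Q : ℝ) * (2 * Real.log n + 5) ≤ n) (hr : 1 ≤ r)
    (hrQ : r + 1 ≤ Q) : 100 * (n : ℝ) ^ 2 * (r : ℝ) ^ n < ((r + 1 : ℕ) : ℝ) ^ n := by
  have hnR : (1 : ℝ) ≤ n := by exact_mod_cast hn
  have hrR : (1 : ℝ) ≤ r := by exact_mod_cast hr
  have hlog : 0 ≤ Real.log n := Real.log_nonneg hnR
  have h1 : ((r : ℝ) + 1) * (2 * Real.log n + 5) ≤ n := by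
    refine le_trans ?_ hQ
    apply mul_le_mul_of_nonneg_right _ (by positivity)
    exact_mod_cast hrQ
  have h2 : 2 * Real.log n + 5 ≤ n / (r + 1) := by
    rw [le_div_iff₀ (by positivity)]
    linarith
  have h3 : (1 : ℝ) / (r + 1) ≤ Real.log ((r + 1) / r) := by
    have h4 := Real.one_sub_inv_le_log_of_pos (x := ((r : ℝ) + 1) / r) (by positivity)
    refine le_trans (le_of_eq ?_) h4
    field_simp
    ring
  have h4 : (n : ℝ) / (r + 1) ≤ n * Real.log ((r + 1) / r) := by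
    calc (n : ℝ) / (r + 1) = n * (1 / (r + 1)) := by ring
      _ ≤ n * Real.log ((r + 1) / r) := by gcongr
  have h5 : Real.exp (2 * Real.log n + 5) ≤ (((r : ℝ) + 1) / r) ^ n := by
    rw [← Real.exp_log (show (0 : ℝ) < ((r : ℝ) + 1) / r by positivity), ← Real.exp_nat_mul]
    exact Real.exp_le_exp.2 (h2.trans h4)
  have h6 : 100 * (n : ℝ) ^ 2 < Real.exp (2 * Real.log n + 5) := by
    rw [Real.exp_add, two_mul, Real.exp_add, Real.exp_log (by linarith)]
    have h7 : (100 : ℝ) < Real.exp 5 := by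
      have h8 := Real.exp_one_gt_d9
      have h9 : Real.exp 5 = Real.exp 1 ^ 5 := by
        rw [← Real.exp_nat_mul]
        norm_num
      rw [h9]
      calc (100 : ℝ) < 2.7 ^ 5 := by norm_num
        _ ≤ Real.exp 1 ^ 5 := by
          apply pow_le_pow_left₀ (by norm_num)
          linarith
    have h8 : (0 : ℝ) < n * n := by positivity
    nlinarith
  have h7 := h6.trans_le h5
  rw [div_pow, lt_div_iff₀ (by positivity)] at h7
  push_cast
  exact h7

lemma sq_le_two_pow {n : ℕ} (h : 5 ≤ n) : n ^ 2 ≤ 2 ^ n := by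
  induction n, h using Nat.le_induction with
  | base => norm_num
  | succ n hn ih =>
    rw [pow_succ 2 n]
    nlinarith

lemma minFac_bound {n Q : ℕ} (h5 : 5 ≤ n) (hQ : 2 * Q ≤ n.minFac) {h : ℝ}
    (hh : 4 * h < (Q : ℝ) ^ n) : 4 * h * n ^ 2 < (n.minFac : ℝ) ^ n := by
  have hnR : (0 : ℝ) < (n : ℝ) ^ 2 := by
    have : (0 : ℝ) < n := by exact_mod_cast (by omega : 0 < n)
    positivity
  have h1 : ((n : ℝ)) ^ 2 ≤ 2 ^ n := by exact_mod_cast sq_le_two_pow h5
  calc 4 * h * n ^ 2 < (Q : ℝ) ^ n * n ^ 2 := mul_lt_mul_of_pos_right hh hnR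
    _ ≤ (Q : ℝ) ^ n * 2 ^ n := by gcongr
    _ = (2 * Q : ℝ) ^ n := by rw [mul_pow]; ring
    _ ≤ (n.minFac : ℝ) ^ n := by
      apply pow_le_pow_left₀ (by positivity)
      exact_mod_cast hQ

end Pool.Agent.H577.SQ
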