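import Pool.Agent.H577.SQ.Uniq
import Pool.Agent.H577.SQ.Gap
import Pool.Agent.H577.SQ.Heights
import Pool.Agent.H577.UQ.Main

set_option autoImplicit false

/-! # The data of a solution in a real quadratic field -/

namespace Pool.Agent.H577.SQ

open NumberField IsDedekindDomain Pool.Agent.W7.FH Pool.Agent.H577.UQ Height

/-- the signs of the coordinates -/
lemma sign_aux {n : ℕ} (hn : Odd n) {a b c : ℝ} (ha : a ≠ 0) (h : a ^ n + b ^ n + c ^ n = 0)
    (h1 : |a| ^ n = |b| ^ n + |c| ^ n) : b = -(|b| / |a|) * a := by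
  wlog hap : 0 < a generalizing a b c
  · have h2 := this (a := -a) (b := -b) (c := -c) (neg_ne_zero.2 ha)
      (by rw [hn.neg_pow, hn.neg_pow, hn.neg_pow]; linear_combination -h)
      (by simpa only [abs_neg] using h1) (by
        have : a < 0 := lt_of_le_of_ne (not_lt.1 hap) ha
        linarith)
    simp only [abs_neg] at h2
    linarith
  rw [abs_of_pos hap] at h1 ⊢
  have e1 : -(|b| / a) * a = -|b| := by
    field_simp
  rw [e1]
  have hb : -|b| ^ n ≤ b ^ n := by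
    rw [← abs_pow]
    exact neg_abs_le _
  have hc : -|c| ^ n ≤ c ^ n := by
    rw [← abs_pow]
    exact neg_abs_le _
  have h2 : b ^ n = (-|b|) ^ n := by
    rw [hn.neg_pow]
    linarith
  exact hn.strictMono_pow.injective h2

/-- three different indices give a permutation -/
lemma exists_perm {o l m : Fin 3} (h1 : o ≠ l) (h2 : l ≠ m) (h3 : o ≠ m) :
    ∃ e : Equiv.Perm (Fin 3), e 0 = o ∧ e 1 = l ∧ e 2 = m := by
  revert o l m
  decide

/-- the normal form of a real solution -/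
structure Nf (n : ℕ) (t : Fin 3 → ℝ) (e : Equiv.Perm (Fin 3)) (lam mu : ℝ) : Prop where
  np : NP n lam mu
  t1 : t (e 1) = -lam * t (e 0)
  t2 : t (e 2) = -mu * t (e 0)
  sm : ∀ j, |Sm t (e j)| = val lam mu j * |t (e 0)|
  mx : mx3 (fun i => |t i|) = |t (e 0)|

lemma nf_of_rp {n : ℕ} (hn : Odd n) {t : Fin 3 → ℝ} (ht : ∀ i, t i ≠ 0)
    (h : t 0 ^ n + t 1 ^ n + t 2 ^ n = 0) {o l m : Fin 3}
    (hRP : RP n (fun i => |t i|) (fun i => |Sm t i|) o l m) :
    ∃ (e : Equiv.Perm (Fin 3)) (lam mu : ℝ), e 2 = m ∧ Nf n t e lam mu := by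
  obtain ⟨h1, h2, h3, h4, h5, h6, h7, h8, h9, h10⟩ := hRP
  obtain ⟨e, e0, e1, e2⟩ := exists_perm h1 h2 h3
  have ho : 0 < |t o| := abs_pos.2 (ht o)
  have hl : 0 < |t l| := abs_pos.2 (ht l)
  simp only at h4 h5 h6 h7 h8 h9 h10
  have hsum : t o ^ n + t l ^ n + t m ^ n = 0 := by
    rw [← h]
    clear * - h1 h2 h3
    have key : ∀ F : Fin 3 → ℝ, F o + F l + F m = F 0 + F 1 + F 2 := by
      intro F
      have g : ∑ i, F i = F 0 + F 1 + F 2 := Fin.sum_univ_three F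
      obtain ⟨e, e0, e1, e2⟩ := exists_perm h1 h2 h3
      rw [← g, ← Equiv.sum_comp e F, Fin.sum_univ_three, e0, e1, e2]
    exact key fun i => t i ^ n
  have s1 : t l = -(|t l| / |t o|) * t o := sign_aux hn (ht o) hsum h7
  have s2 : t m = -(|t m| / |t o|) * t o :=
    sign_aux hn (ht o) (b := t m) (c := t l) (by linear_combination hsum) (by linarith)
  refine ⟨e, |t l| / |t o|, |t m| / |t o|, e2, ?_, ?_, ?_, ?_, ?_⟩
  · refine ⟨by positivity, by gcongr, ?_⟩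
    rw [div_pow, div_pow, ← add_div, ← h7]
    exact div_self (by positivity)
  · rw [e0, e1]
    exact s1
  · rw [e0, e2]
    exact s2
  · intro j
    fin_cases j
    · change |Sm t (e 0)| = val _ _ 0 * |t (e 0)|
      rw [e0, val0, h8]
      field_simp
    · change |Sm t (e 1)| = val _ _ 1 * |t (e 0)|
      rw [e0, e1, val1, h9]
      field_simp
    · change |Sm t (e 2)| = val _ _ 2 * |t (e 0)|
      rw [e0, e2, val2, h10]
      field_simp
  · rw [e0]
    apply le_antisymm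
    · apply mx3_le
      intro i
      rcases UQ.fin3_cases h1 h2 h3 i with rfl | rfl | rfl
      · exact le_rfl
      · exact h6
      · exact h5.trans h6
    · exact le_mx3 (fun i => |t i|) o

lemma exists_nf {n : ℕ} (hn : Odd n) {t : Fin 3 → ℝ} (ht : ∀ i, t i ≠ 0)
    (h : t 0 ^ n + t 1 ^ n + t 2 ^ n = 0) :
    ∃ (e : Equiv.Perm (Fin 3)) (lam mu : ℝ), Nf n t e lam mu := by
  obtain ⟨o, l, m, hRP⟩ := real_place hn ht h
  obtain ⟨e, lam, mu, -, h1⟩ := nf_of_rp hn ht h hRP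
  exact ⟨e, lam, mu, h1⟩

lemma exists_nf_min {n : ℕ} (hn : Odd n) {t : Fin 3 → ℝ} (ht : ∀ i, t i ≠ 0)
    (h : t 0 ^ n + t 1 ^ n + t 2 ^ n = 0) (i : Fin 3) (hi : ∀ j, |t i| ≤ |t j|) :
    ∃ (e : Equiv.Perm (Fin 3)) (lam mu : ℝ), e 2 = i ∧ Nf n t e lam mu := by
  obtain ⟨o, l, m, hRP⟩ := real_place hn ht h
  have hRP' := hRP
  obtain ⟨h1, h2, h3, h4, h5, h6, h7, h8, h9, h10⟩ := hRP
  simp only at h4 h5 h6 h7 h8 h9 h10
  rcases UQ.fin3_cases h1 h2 h3 i with rfl | rfl | rfl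
  · exfalso
    have g1 := hi m
    have g2 : |t i| = |t m| := le_antisymm g1 (h5.trans h6)
    have g3 : 0 < |t l| ^ n := by
      have : 0 < |t l| := abs_pos.2 (ht l)
      positivity
    rw [g2] at h7
    linarith
  · have g1 : |t i| = |t m| := le_antisymm (hi m) h5
    refine nf_of_rp hn ht h (o := o) (l := m) (m := i) ⟨h3, h2.symm, h1, ?_, ?_, ?_, ?_, ?_, ?_, ?_⟩
    · change 0 < |t i|
      rw [g1]
      exact h4
    · exact g1.le
    · change |t m| ≤ |t o|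
      rw [← g1]
      exact h6
    · change |t o| ^ n = |t m| ^ n + |t i| ^ n
      rw [h7]
      ring
    · change |Sm t o| = |t m| + |t i|
      rw [h8]
      ring
    · exact h10
    · exact h9
  · exact nf_of_rp hn ht h hRP'

/-- the real data of a solution -/
theorem real_data {n : ℕ} (hn : Odd n) {K : Type} [Field K] [NumberField K]
    (f g : K →+* ℝ) (σ τ : K →ₐ[ℚ] ℂ) (hστ : σ ≠ τ)
    (hmem : ∀ ρ : K →ₐ[ℚ] ℂ, ρ = σ ∨ ρ = τ) (hfn : ∀ x, ‖σ x‖ = |f x|)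
    (hgn : ∀ x, ‖τ x‖ = |g x|)
    (hNabs : ∀ x : K, ((|Algebra.norm ℚ x| : ℚ) : ℝ) = ‖σ x‖ * ‖τ x‖) (t : Fin 3 → K)
    (ht : ∀ i, t i ≠ 0) (r : Fin 3 → ℕ) (hHf : 0 < Hf t)
    (hr : ∀ i, ((|Algebra.norm ℚ (Sm t i)| : ℚ) : ℝ) * Hf t = (r i : ℝ) ^ n)
    {e1 e2 : Equiv.Perm (Fin 3)} {lam1 mu1 lam2 mu2 : ℝ}
    (h1 : Nf n (fun i => f (t i)) e1 lam1 mu1) (h2 : Nf n (fun i => g (t i)) e2 lam2 mu2) :
    RD n (r ∘ e1) (e1.trans e2.symm) lam1 mu1 lam2 mu2 (mulHeight ![t 0, t 1, t 2]) := by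
  have hheight : mulHeight ![t 0, t 1, t 2] = |f (t (e1 0))| * |g (t (e2 0))| * Hf t := by
    rw [mulHeight_two σ τ hστ hmem t (ht 0), ← h1.mx, ← h2.mx]
    have g1 : (fun i => ‖σ (t i)‖) = fun i => |f (t i)| := funext fun i => hfn _
    have g2 : (fun i => ‖τ (t i)‖) = fun i => |g (t i)| := funext fun i => hgn _
    rw [g1, g2]
  have hp1 : 0 < |f (t (e1 0))| := abs_pos.2 ((map_ne_zero f).2 (ht _))
  have hp2 : 0 < |g (t (e2 0))| := abs_pos.2 ((map_ne_zero g).2 (ht _))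
  refine ⟨h1.np, h2.np, by rw [hheight]; positivity, fun j => ?_⟩
  rw [Function.comp_apply, ← hr, hNabs, hfn, hgn, hheight]
  have g1 := h1.sm j
  have g2 := h2.sm (e2.symm (e1 j))
  rw [Equiv.apply_symm_apply, Sm_embed] at g2
  rw [Sm_embed] at g1
  rw [g1, g2]
  change val lam1 mu1 j * val lam2 mu2 (e2.symm (e1 j)) * _ = _
  ring

end Pool.Agent.H577.SQ
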