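import Pool.Agent.H577.SQ.Imag
import Pool.Agent.H577.SQ.RealData

set_option autoImplicit false

/-! # Solutions of small height are conjugate pairs -/

namespace Pool.Agent.H577.SQ

open NumberField IsDedekindDomain Pool.Agent.W7.FH Pool.Agent.H577.UQ Height ComplexConjugate

lemma gap_of_lt {n Q : ℕ} (hn : 1 ≤ n) (hQ : (Q : ℝ) * (2 * Real.log n + 5) ≤ n)
    {r : Fin 3 → ℕ} (h1 : ∀ i, 1 ≤ r i) (h2 : ∀ i, r i < Q) : Gap n r := by
  intro i j hij
  have h3 := gap hn hQ (h1 i) (by have := h2 j; omega)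
  refine h3.trans_le ?_
  apply pow_le_pow_left₀ (by positivity)
  exact_mod_cast hij

lemma RD.le {n : ℕ} {r : Fin 3 → ℕ} {π : Equiv.Perm (Fin 3)} {lam1 mu1 lam2 mu2 H : ℝ}
    (h : RD n r π lam1 mu1 lam2 mu2 H) (hn : n ≠ 0) (j : Fin 3) : (r j : ℝ) ^ n ≤ 4 * H := by
  have key : ∀ {lam mu : ℝ}, NP n lam mu → ∀ i, val lam mu i ≤ 2 := by
    intro lam mu h i
    have h1 := h.lam_lt hn
    have h2 := h.mu_lt hn
    have h3 := h.mu_pos
    have h4 := h.lam_pos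
    fin_cases i
    · change lam + mu ≤ 2
      linarith
    · change 1 - mu ≤ 2
      linarith
    · change 1 - lam ≤ 2
      linarith
  rw [← h.rel j]
  have h1 := key h.np1 j
  have h2 := key h.np2 (π j)
  have h3 := val_pos h.np1 hn j
  have h4 := val_pos h.np2 hn (π j)
  have h5 : val lam1 mu1 j * val lam2 mu2 (π j) ≤ 4 := by nlinarith
  have := h.pos
  gcongr

lemma perm_two : ∀ e : Equiv.Perm (Fin 3), (e 2 + 1 = e 0 ∧ e 2 + 2 = e 1) ∨
    (e 2 + 1 = e 1 ∧ e 2 + 2 = e 0) := by decide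

/-- the result in the case of a real field -/
theorem real_min {K : Type} [Field K] [NumberField K] {σ τ : K →ₐ[ℚ] ℂ} {s : K ≃ₐ[ℚ] K}
    (hE : Emb K σ τ s) {f g : K →+* ℝ} (hf : ∀ x, ((f x : ℝ) : ℂ) = σ x)
    (hg : ∀ x, ((g x : ℝ) : ℂ) = τ x) {n Q : ℕ} (h5 : 5 ≤ n) (hodd : Odd n)
    (hQ : (Q : ℝ) * (2 * Real.log n + 5) ≤ n)
    (t : Fin 3 → K) (ht : ∀ i, t i ≠ 0) (hF : (t 0) ^ n + (t 1) ^ n + (t 2) ^ n = 0)
    (hH : 4 * mulHeight ![t 0, t 1, t 2] < (Q : ℝ) ^ n) (r : Fin 3 → ℕ) (hHf : 0 < Hf t)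
    (hr : ∀ i, 1 ≤ r i ∧ ((|Algebra.norm ℚ (Sm t i)| : ℚ) : ℝ) * Hf t = (r i : ℝ) ^ n)
    (hreq : ¬ ∀ i j, r i = r j) (i : Fin 3) (hi1 : ∀ j, |f (t i)| ≤ |f (t j)|)
    (hi2 : ∀ j, |g (t i)| ≤ |g (t j)|) :
    (∀ i, (r i : ℝ) ^ n ≤ 4 * mulHeight ![t 0, t 1, t 2]) ∧
    ∃ o : Fin 3, s (t (o + 1) / t o) = t (o + 2) / t o ∧ r (o + 1) = r (o + 2) ∧ r o < r (o + 1) ∧
      4 * mulHeight ![t 0, t 1, t 2] ≤ 8 * n * (r (o + 1) : ℝ) ^ n := by
  have hn0 : n ≠ 0 := by omega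
  have hnR : (5 : ℝ) ≤ n := by exact_mod_cast h5
  have hFf : ∀ f : K →+* ℝ, f (t 0) ^ n + f (t 1) ^ n + f (t 2) ^ n = 0 := by
    intro f
    rw [← map_pow, ← map_pow, ← map_pow, ← map_add, ← map_add, hF, map_zero]
  have htf : ∀ (f : K →+* ℝ) i, f (t i) ≠ 0 := fun f i => (map_ne_zero f).2 (ht i)
  obtain ⟨e1, lam1, mu1, he1, n1⟩ := exists_nf_min hodd (htf f) (hFf f) i hi1
  obtain ⟨e2, lam2, mu2, he2, n2⟩ := exists_nf_min hodd (htf g) (hFf g) i hi2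
  have hfn : ∀ x, ‖σ x‖ = |f x| := by
    intro x
    rw [← hf, Complex.norm_real, Real.norm_eq_abs]
  have hgn : ∀ x, ‖τ x‖ = |g x| := by
    intro x
    rw [← hg, Complex.norm_real, Real.norm_eq_abs]
  have hRD := real_data hodd f g σ τ hE.ne hE.mem hfn hgn hE.norm t ht r hHf
    (fun i => (hr i).2) n1 n2
  set H := mulHeight ![t 0, t 1, t 2] with hHd
  have hle : ∀ j, (r j : ℝ) ^ n ≤ 4 * H := by
    intro j
    have h1 := hRD.le hn0 (e1.symm j)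
    rwa [Function.comp_apply, Equiv.apply_symm_apply] at h1
  have hrQ : ∀ i, r i < Q := by
    intro i
    have h1 := (hle i).trans_lt hH
    have h2 := lt_of_pow_lt_pow_left₀ n (by positivity) h1
    exact_mod_cast h2
  have hgap : Gap n (r ∘ e1) := gap_of_lt (by omega) hQ (fun i => (hr _).1) (fun i => hrQ _)
  refine ⟨hle, ?_⟩
  have hπ2 : (e1.trans e2.symm) 2 = 2 := by
    rw [Equiv.trans_apply, he1, ← he2, Equiv.symm_apply_apply]
  have hcase : ((e1.trans e2.symm) 0 = 0 ∧ (e1.trans e2.symm) 1 = 1) ∨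
      ((e1.trans e2.symm) 0 = 1 ∧ (e1.trans e2.symm) 1 = 0) := by
    rcases perm3 (e1.trans e2.symm) with ⟨g0, g1, g2⟩ | ⟨g0, g1, g2⟩ | ⟨g0, g1, g2⟩ |
      ⟨g0, g1, g2⟩ | ⟨g0, g1, g2⟩ | ⟨g0, g1, g2⟩
    · exact Or.inl ⟨g0, g1⟩
    · rw [hπ2] at g2; exact absurd g2 (by decide)
    · exact Or.inr ⟨g0, g1⟩
    · rw [hπ2] at g2; exact absurd g2 (by decide)
    · rw [hπ2] at g2; exact absurd g2 (by decide)
    · rw [hπ2] at g2; exact absurd g2 (by decide)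
  rcases hcase with ⟨g0, g1⟩ | ⟨g0, g1⟩
  · exact (config1 hRD (by omega) hgap g0 g1).elim
  · obtain ⟨c1, c2, c3⟩ := config2 hRD (by omega) hgap g0 g1
    rw [Function.comp_apply, Function.comp_apply] at c1
    have hne : ∀ k, (r (e1 k) = r (e1 0)) → k = 2 → False := by
      rintro k hk rfl
      apply hreq
      have h4 : ∀ j, r j = r (e1 0) := by
        intro j
        obtain ⟨k, rfl⟩ := e1.surjective j
        fin_cases k
        · rfl
        · exact c1.symm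
        · exact hk
      intro i j
      rw [h4 i, h4 j]
    -- the relations
    have R0 := hRD.rel 0
    have R2 := hRD.rel 2
    rw [g0] at R0
    rw [hπ2] at R2
    simp only [val0, val1, val2, Function.comp_apply] at R0 R2
    rw [← c2] at R0
    rw [← c3] at R2
    have a1 := n1.np.lam_lt hn0
    have a2 := n1.np.mu_lt hn0
    have a3 := n1.np.mu_pos
    have a4 := n1.np.lam_pos
    have a5 := n1.np.one_le_sum hn0
    have a6 := n1.np.one_sub_mu hn0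
    have a7 := n1.np.le
    have hHpos := hRD.pos
    have hlt : r (e1 2) < r (e1 0) := by
      have h1 : (r (e1 2) : ℝ) ^ n ≤ (r (e1 0) : ℝ) ^ n := by
        rw [← R0, ← R2]
        apply mul_le_mul_of_nonneg_right _ hHpos.le
        nlinarith
      have h2 : r (e1 2) ≤ r (e1 0) := by
        have h3 := le_of_pow_le_pow_left₀ hn0 (by positivity) h1
        exact_mod_cast h3
      exact lt_of_le_of_ne h2 fun h3 => hne 2 h3 rfl
    have hup : 4 * H ≤ 8 * n * (r (e1 0) : ℝ) ^ n := by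
      rw [← R0]
      have h1 : 1 ≤ 2 * n * ((lam1 + mu1) * (1 - mu1)) := by
        have h2 : (1 - mu1) ≤ (lam1 + mu1) * (1 - mu1) := by nlinarith
        have h3 : 2 * (n : ℝ) * (1 - mu1) ≤ 2 * n * ((lam1 + mu1) * (1 - mu1)) := by gcongr
        linarith
      nlinarith
    -- the automorphism
    have k0 : e1 0 = e2 1 := by
      rw [Equiv.trans_apply, Equiv.symm_apply_eq] at g0
      exact g0
    have k1 : e1 1 = e2 0 := by
      rw [Equiv.trans_apply, Equiv.symm_apply_eq] at g1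
      exact g1
    have k2 : e1 2 = e2 2 := by rw [he1, he2]
    have hs1 : s (t (e1 0) / t (e1 2)) = t (e1 1) / t (e1 2) := by
      apply (σ : K →+* ℂ).injective
      change σ _ = σ _
      rw [hE.s_eq, ← hf, ← hg, map_div₀ g, map_div₀ f, n1.t1, n1.t2, k0, k2, n2.t1, n2.t2, c2, c3]
      have q1 : f (t (e1 0)) ≠ 0 := htf f _
      have q2 : g (t (e2 0)) ≠ 0 := htf g _
      have q3 : mu2 ≠ 0 := n2.np.mu_pos.ne'
      have q4 : -lam2 * g (t (e2 0)) / (-mu2 * g (t (e2 0))) =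
          -lam2 * f (t (e1 0)) / (-mu2 * f (t (e1 0))) := by
        field_simp
      rw [← k0, q4]
    have hs2 : s (t (e1 1) / t (e1 2)) = t (e1 0) / t (e1 2) := by
      rw [← hs1, hE.s_inv]
    rcases perm_two e1 with ⟨j1, j2⟩ | ⟨j1, j2⟩
    · refine ⟨e1 2, ?_, ?_, ?_, ?_⟩
      · rw [j1, j2]; exact hs1
      · rw [j1, j2]; exact c1
      · rw [j1]; exact hlt
      · rw [j1]; exact hup
    · refine ⟨e1 2, ?_, ?_, ?_, ?_⟩
      · rw [j1, j2]; exact hs2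
      · rw [j1, j2]; exact c1.symm
      · rw [j1, ← c1]; exact hlt
      · rw [j1, ← c1]; exact hup

/-- the relation between the norms -/
lemma norm_rel {K : Type} [Field K] [NumberField K] {σ τ : K →ₐ[ℚ] ℂ} {s : K ≃ₐ[ℚ] K}
    (hE : Emb K σ τ s) {n : ℕ} (t : Fin 3 → K) (ht : ∀ i, t i ≠ 0) (r : Fin 3 → ℕ)
    (hHf : 0 < Hf t)
    (hr : ∀ i, 1 ≤ r i ∧ ((|Algebra.norm ℚ (Sm t i)| : ℚ) : ℝ) * Hf t = (r i : ℝ) ^ n)
    {o : Fin 3} (hs : s (t (o + 1) / t o) = t (o + 2) / t o) :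
    |Algebra.norm ℚ (1 + t (o + 1) / t o)| * (r o : ℚ) ^ n =
      (r (o + 2) : ℚ) ^ n * (Algebra.trace ℚ K (t (o + 1) / t o)) ^ 2 := by
  have hto := ht o
  have e23 : ∀ i : Fin 3, i + 2 + 1 = i := by decide
  have e24 : ∀ i : Fin 3, i + 2 + 2 = i + 1 := by decide
  set β := t (o + 1) / t o with hβ
  have h1 : Sm t (o + 2) = t o * (1 + β) := by
    unfold Sm
    rw [e23, e24, hβ]
    field_simp
  have h2 : Sm t o = t o * (β + s β) := by
    unfold Sm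
    rw [hs, hβ]
    field_simp
  have h3 : Algebra.norm ℚ (β + s β) = (Algebra.trace ℚ K β) ^ 2 := by
    have h4 : ((Algebra.norm ℚ (β + s β) : ℚ) : ℂ) = (((Algebra.trace ℚ K β) ^ 2 : ℚ) : ℂ) := by
      rw [hE.normC]
      push_cast
      rw [hE.trC, ← hE.s_eq (β + s β), map_add s, hE.s_inv, map_add, map_add, hE.s_eq β]
      ring
    exact_mod_cast h4
  have h4 := (hr (o + 2)).2
  have h5 := (hr o).2
  rw [h1, map_mul, abs_mul] at h4
  rw [h2, map_mul, abs_mul, h3] at h5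
  push_cast at h4 h5
  have h6 : 0 < ((|Algebra.norm ℚ (t o)| : ℚ) : ℝ) := by
    have : Algebra.norm ℚ (t o) ≠ 0 := by
      rw [Ne, Algebra.norm_eq_zero_iff]
      exact hto
    exact_mod_cast abs_pos.2 this
  push_cast at h6
  have h7 : (((|Algebra.norm ℚ (1 + β)| * (r o : ℚ) ^ n : ℚ)) : ℝ) =
      (((r (o + 2) : ℚ) ^ n * (Algebra.trace ℚ K β) ^ 2 : ℚ) : ℝ) := by
    push_cast
    rw [← h4, ← h5, abs_of_nonneg (sq_nonneg ((Algebra.trace ℚ K β : ℚ) : ℝ))]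
    ring
  exact_mod_cast h7

theorem conj_main (K : Type) [Field K] [NumberField K] (hK : Module.finrank ℚ K = 2)
    {n Q : ℕ} (h5 : 5 ≤ n) (h6 : Nat.Coprime n 6)
    (hQ1 : 2 * Q ≤ n.minFac) (hQ : (Q : ℝ) * (2 * Real.log n + 5) ≤ n)
    (t : Fin 3 → K) (ht : ∀ i, t i ≠ 0) (hF : (t 0) ^ n + (t 1) ^ n + (t 2) ^ n = 0)
    (hH : 4 * mulHeight ![t 0, t 1, t 2] < (Q : ℝ) ^ n)
    (hmin : ∃ i : Fin 3, ∀ (f : K →+* ℝ) (j : Fin 3), |f (t i)| ≤ |f (t j)|) :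
    (t 0 + t 1 + t 2 = 0 ∧ (t 0) ^ 2 + t 0 * t 1 + (t 1) ^ 2 = 0) ∨
    ∃ (s : K ≃ₐ[ℚ] K) (o : Fin 3) (q r : ℕ), s ≠ 1 ∧ 1 ≤ q ∧ q < r ∧ r < Q ∧
      s (t (o + 1) / t o) = t (o + 2) / t o ∧
      |Algebra.norm ℚ (1 + t (o + 1) / t o)| * (q : ℚ) ^ n =
        (r : ℚ) ^ n * (Algebra.trace ℚ K (t (o + 1) / t o)) ^ 2 ∧
      (r : ℝ) ^ n ≤ 4 * mulHeight ![t 0, t 1, t 2] ∧
      4 * mulHeight ![t 0, t 1, t 2] ≤ 8 * n * (r : ℝ) ^ n ∧
      (IsTotallyComplex K → 4 * mulHeight ![t 0, t 1, t 2] ≤ 5 * (r : ℝ) ^ n) ∧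
      ∀ l : ℕ, l.Prime → l ∣ r → Splits K l := by
  have hm : ∀ p : ℕ, p.Prime → p ∣ n → Module.finrank ℚ K + 1 < p := by
    rw [hK]; exact prime_gt_three h6
  have hodd : Odd n := odd_of_big Module.finrank_pos hm
  have hnR : (5 : ℝ) ≤ n := by exact_mod_cast h5
  obtain ⟨r, hHf, hr, hU, hsplit⟩ := norms K hK h5 h6 t ht hF (minFac_bound h5 hQ1 hH)
  by_cases hreq : ∀ i j, r i = r j
  · exact Or.inl (unit_case hK (by omega) hodd (ht 0) (ht 1) (ht 2) hF (hU hreq))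
  right
  have hne12 : ∀ i : Fin 3, i + 1 ≠ i + 2 := by decide
  obtain ⟨σ, τ, s, hE, hcase⟩ := setup K hK
  have hpos : ∀ i, 0 < (r i : ℝ) ^ n := by
    intro i
    have : (0 : ℝ) < r i := by exact_mod_cast (hr i).1
    positivity
  rcases hcase with ⟨f, g, hf, hg⟩ | ⟨hτ, -⟩
  · obtain ⟨i, hi⟩ := hmin
    obtain ⟨hle, o, h1, h2, h3, h4⟩ := real_min hE hf hg h5 hodd hQ t ht hF hH r hHf hr hreq i
      (hi f) (hi g)
    refine ⟨s, o, r o, r (o + 1), hE.s_ne, (hr o).1, h3, ?_, h1, ?_, hle _, h4, ?_,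
      hsplit (o + 1) (o + 2) (hne12 o) h2⟩
    · have h5 := (hle (o + 1)).trans_lt hH
      have h6 := lt_of_pow_lt_pow_left₀ n (by positivity) h5
      exact_mod_cast h6
    · rw [h2]
      exact norm_rel hE t ht r hHf hr h1
    · intro hc
      exfalso
      have h7 : ComplexEmbedding.IsReal (σ : K →+* ℂ) := by
        rw [ComplexEmbedding.isReal_iff]
        ext x
        change (starRingEnd ℂ) (σ x) = σ x
        rw [← hf, Complex.conj_ofReal]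
      have h8 : ¬ ComplexEmbedding.IsReal (σ : K →+* ℂ) := by
        rw [← InfinitePlace.isComplex_mk_iff]
        exact IsTotallyComplex.isComplex _
      exact h8 h7
  · obtain ⟨hle, o, h1, h2, h3, h4, -⟩ := imag_main hE hτ h5 hodd hQ t ht hF hH r hHf hr hreq
    refine ⟨s, o, r o, r (o + 1), hE.s_ne, (hr o).1, h3, ?_, h1, ?_, hle _, ?_, fun _ => h4,
      hsplit (o + 1) (o + 2) (hne12 o) h2⟩
    · have h5 := (hle (o + 1)).trans_lt hH
      have h6 := lt_of_pow_lt_pow_left₀ n (by positivity) h5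
      exact_mod_cast h6
    · rw [h2]
      exact norm_rel hE t ht r hHf hr h1
    · refine h4.trans ?_
      have := hpos (o + 1)
      nlinarith

end Pool.Agent.H577.SQ
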