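import Pool.Agent.H577.SQ.Conj

set_option autoImplicit false

/-! # A conjugate solution in an imaginary quadratic field is determined by two norms -/

namespace Pool.Agent.H577.SQ

open Complex

lemma step_im {P : ℂ} {b : ℝ} : (P * (1 + b * I)).im = P.im + b * P.re := by
  simp only [mul_im, add_re, one_re, mul_re, ofReal_re, I_re, mul_zero, ofReal_im, I_im, mul_one,
    sub_self, add_zero, add_im, one_im, mul_im, zero_add]
  ring

lemma norm_ofReal_mul_I {b : ℝ} (hb : 0 ≤ b) : ‖(b : ℂ) * I‖ = b := by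
  rw [norm_mul, norm_I, mul_one, norm_real, Real.norm_eq_abs, abs_of_nonneg hb]

lemma re_pos {n : ℕ} (hn : 1 ≤ n) {a b : ℝ} (ha : 0 ≤ a) (hb : 0 ≤ b) (ha1 : a ≤ 1 / (4 * n))
    (hb1 : b ≤ 1 / (4 * n)) {j k : ℕ} (hjk : j + k ≤ n) :
    0 < ((1 + a * I) ^ j * (1 + b * I) ^ k).re := by
  have hnR : (1 : ℝ) ≤ n := by exact_mod_cast hn
  have h1 : ‖(1 + a * I) ^ j * (1 + b * I) ^ k - 1‖ ≤ 5 / 16 := by
    refine (two_pow_sub_one (δ := 1 / (4 * n)) (by rw [norm_ofReal_mul_I ha]; exact ha1)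
      (by rw [norm_ofReal_mul_I hb]; exact hb1) j k).trans ?_
    apply real_pow_near (by positivity)
    have h3 : ((j + k : ℕ) : ℝ) ≤ n := by exact_mod_cast hjk
    calc ((j + k : ℕ) : ℝ) * (1 / (4 * n)) ≤ n * (1 / (4 * n)) := by gcongr
      _ = 1 / 4 := by field_simp
  have h2 := (abs_le.1 ((Complex.abs_re_le_norm _).trans h1)).1
  rw [sub_re, one_re] at h2
  linarith

lemma im_nonneg_aux {n : ℕ} (hn : 1 ≤ n) {a b : ℝ} (ha : 0 ≤ a) (hb : 0 ≤ b)
    (ha1 : a ≤ 1 / (4 * n)) (hb1 : b ≤ 1 / (4 * n)) (j : ℕ) : ∀ k : ℕ, j + k ≤ n →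
    0 ≤ ((1 + a * I) ^ j * (1 + b * I) ^ k).im := by
  have hj : j ≤ n → 0 ≤ ((1 + a * I) ^ j).im := by
    induction j with
    | zero => intro _; simp
    | succ j ih =>
      intro h
      rw [pow_succ, step_im]
      have h1 := ih (by omega)
      have h2 := re_pos hn ha hb ha1 hb1 (j := j) (k := 0) (by omega)
      rw [pow_zero, mul_one] at h2
      positivity
  intro k
  induction k with
  | zero =>
    intro h
    rw [pow_zero, mul_one]
    exact hj (by omega)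
  | succ k ih =>
    intro h
    rw [pow_succ, ← mul_assoc, step_im]
    have h1 := ih (by omega)
    have h2 := re_pos hn ha hb ha1 hb1 (j := j) (k := k) (by omega)
    positivity

lemma im_pos_aux {n : ℕ} (hn : 1 ≤ n) {a b : ℝ} (ha : 0 < a) (hb : 0 < b)
    (ha1 : a ≤ 1 / (4 * n)) (hb1 : b ≤ 1 / (4 * n)) {j k : ℕ} (hjk : j + k ≤ n)
    (h1 : 1 ≤ j + k) : 0 < ((1 + a * I) ^ j * (1 + b * I) ^ k).im := by
  rcases Nat.eq_zero_or_pos k with rfl | hk
  · obtain ⟨j, rfl⟩ : ∃ i, j = i + 1 := ⟨j - 1, by omega⟩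
    rw [pow_zero, mul_one, pow_succ, step_im]
    have h2 := im_nonneg_aux hn ha.le hb.le ha1 hb1 j 0 (by omega)
    have h3 := re_pos hn ha.le hb.le ha1 hb1 (j := j) (k := 0) (by omega)
    rw [pow_zero, mul_one] at h2 h3
    positivity
  · obtain ⟨k, rfl⟩ : ∃ i, k = i + 1 := ⟨k - 1, by omega⟩
    rw [pow_succ, ← mul_assoc, step_im]
    have h2 := im_nonneg_aux hn ha.le hb.le ha1 hb1 j k (by omega)
    have h3 := re_pos hn ha.le hb.le ha1 hb1 (j := j) (k := k) (by omega)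
    positivity

/-- the imaginary part of `(s + i) ^ n` -/
noncomputable def gi (n : ℕ) (s : ℝ) : ℝ := (((s : ℂ) + I) ^ n).im

lemma factor {s : ℝ} (hs : 0 < s) : (s : ℂ) + I = s * (1 + (s⁻¹ : ℝ) * I) := by
  have : (s : ℂ) ≠ 0 := by exact_mod_cast hs.ne'
  push_cast
  field_simp

lemma gi_mono {n : ℕ} (hn : 2 ≤ n) {s s' : ℝ} (hs : 4 * n ≤ s) (hlt : s < s') :
    gi n s < gi n s' := by
  have hnR : (2 : ℝ) ≤ n := by exact_mod_cast hn
  have hs0 : 0 < s := by linarith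
  have hs0' : 0 < s' := by linarith
  have b : ∀ x : ℝ, 4 * n ≤ x → 0 < x⁻¹ ∧ x⁻¹ ≤ 1 / (4 * n) := by
    intro x hx
    have hx0 : 0 < x := by linarith
    refine ⟨by positivity, ?_⟩
    rw [inv_eq_one_div]
    exact one_div_le_one_div_of_le (by linarith) hx
  obtain ⟨b1, b2⟩ := b s hs
  obtain ⟨b1', b2'⟩ := b s' (by linarith)
  have g := (Commute.all ((s' : ℂ) + I) ((s : ℂ) + I)).geom_sum₂_mul n
  have h1 : gi n s' - gi n s =
      (∑ i ∈ Finset.range n, (((s' : ℂ) + I) ^ i * ((s : ℂ) + I) ^ (n - 1 - i)).im) * (s' - s) := by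
    unfold gi
    rw [← sub_im, ← g]
    have e : ((s' : ℂ) + I) - ((s : ℂ) + I) = ((s' - s : ℝ) : ℂ) := by
      push_cast
      ring
    rw [e, im_mul_ofReal, im_sum]
  have h2 : 0 < ∑ i ∈ Finset.range n, (((s' : ℂ) + I) ^ i * ((s : ℂ) + I) ^ (n - 1 - i)).im := by
    apply Finset.sum_pos
    · intro i hi
      rw [Finset.mem_range] at hi
      rw [factor hs0, factor hs0', mul_pow, mul_pow]
      have e : (s' : ℂ) ^ i * (1 + (s'⁻¹ : ℝ) * I) ^ i *
          ((s : ℂ) ^ (n - 1 - i) * (1 + (s⁻¹ : ℝ) * I) ^ (n - 1 - i)) =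
          ((1 + (s'⁻¹ : ℝ) * I) ^ i * (1 + (s⁻¹ : ℝ) * I) ^ (n - 1 - i)) *
          ((s' ^ i * s ^ (n - 1 - i) : ℝ) : ℂ) := by
        push_cast
        ring
      rw [e, im_mul_ofReal]
      have h3 := im_pos_aux (n := n) (by omega) b1' b1 b2' b2 (j := i) (k := n - 1 - i)
        (by omega) (by omega)
      positivity
    · exact ⟨0, Finset.mem_range.2 (by omega)⟩
  have h3 : 0 < s' - s := by linarith
  have h4 := mul_pos h2 h3
  linarith

lemma gi_ge {n : ℕ} (hn : 1 ≤ n) {s : ℝ} (hs : 4 * n ≤ s) : 1 ≤ gi n s := by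
  have hnR : (1 : ℝ) ≤ n := by exact_mod_cast hn
  have hs0 : 0 < s := by linarith
  have hb : s⁻¹ ≤ 1 / (4 * n) := by
    rw [inv_eq_one_div]
    exact one_div_le_one_div_of_le (by linarith) hs
  have key : ∀ m : ℕ, m + 1 ≤ n → 1 ≤ (((s : ℂ) + I) ^ (m + 1)).im := by
    intro m
    induction m with
    | zero => intro _; simp
    | succ m ih =>
      intro h
      have h1 := ih (by omega)
      have h2 := re_pos hn (a := s⁻¹) (b := s⁻¹) (by positivity) (by positivity) hb hb (j := m + 1)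
        (k := 0) (by omega)
      rw [pow_zero, mul_one] at h2
      have h3 : 0 < (((s : ℂ) + I) ^ (m + 1)).re := by
        rw [factor hs0, mul_pow, ← ofReal_pow, re_ofReal_mul]
        positivity
      have h4 : (((s : ℂ) + I) ^ (m + 1 + 1)).im =
          s * (((s : ℂ) + I) ^ (m + 1)).im + (((s : ℂ) + I) ^ (m + 1)).re := by
        rw [pow_succ _ (m + 1), mul_im]
        simp only [add_re, ofReal_re, I_re, add_im, ofReal_im, I_im]
        ring
      rw [h4]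
      nlinarith
  have h1 := key (n - 1) (by omega)
  rwa [show n - 1 + 1 = n by omega] at h1

lemma core_im {n : ℕ} (hn : 2 ≤ n) {a s a' s' c : ℝ} (ha : 0 < a) (ha' : 0 < a')
    (hs : 4 * n ≤ s) (hs' : 4 * n ≤ s') (h : a ^ n = 2 * gi n s) (h' : a' ^ n = 2 * gi n s')
    (hc : c ≤ 1) (he : (a - c) ^ 2 + s ^ 2 = (a' - c) ^ 2 + s' ^ 2) : s = s' ∧ a = a' := by
  have hnR : (2 : ℝ) ≤ n := by exact_mod_cast hn
  have one : ∀ {a s : ℝ}, 0 < a → 4 * n ≤ s → a ^ n = 2 * gi n s → 1 < a := by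
    intro a s ha hs h
    have h1 := gi_ge (by omega) hs
    by_contra hcon
    have h2 : a ^ n ≤ 1 := pow_le_one₀ ha.le (not_lt.1 hcon)
    linarith
  have key : ∀ {a s a' s' : ℝ}, 0 < a → 0 < a' → 4 * n ≤ s → a ^ n = 2 * gi n s →
      a' ^ n = 2 * gi n s' → (a - c) ^ 2 + s ^ 2 = (a' - c) ^ 2 + s' ^ 2 → ¬ s < s' := by
    intro a s a' s' ha ha' hs h h' he hlt
    have h1 := gi_mono hn hs hlt
    have h2 : a ^ n < a' ^ n := by rw [h, h']; linarith
    have h3 : a < a' := lt_of_pow_lt_pow_left₀ n ha'.le h2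
    have h4 := one ha hs h
    have h5 : s ^ 2 < s' ^ 2 := by nlinarith
    have h6 : (a - c) ^ 2 < (a' - c) ^ 2 := by
      apply pow_lt_pow_left₀ (by linarith) (by linarith) (by norm_num)
    linarith
  have h1 : s = s' := le_antisymm (not_lt.1 (key ha' ha hs' h' h he.symm)) (not_lt.1 (key ha ha' hs h h' he))
  refine ⟨h1, ?_⟩
  rw [h1, ← h'] at h
  exact (pow_left_inj₀ ha.le ha'.le (by omega)).1 h

/-- the form of a solution `1 + Z ^ n + conj Z ^ n = 0` near the line `Re Z = 0` -/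
lemma form {n k : ℕ} (hk : n = 2 * k + 1) (hn : 2 ≤ n) {Z : ℂ} (hy : 0 < Z.im) (hx : Z.re ≠ 0)
    (hw : 4 * n * |Z.re| ≤ Z.im) (h : 1 + Z ^ n + (starRingEnd ℂ) Z ^ n = 0) {ρ : ℝ}
    (hρ : (1 + Z.re) ^ 2 + Z.im ^ 2 = ρ * (2 * Z.re) ^ 2) :
    ∃ a s : ℝ, 0 < a ∧ 4 * n ≤ s ∧ a ^ n = 2 * gi n s ∧ (a - (-1) ^ k) ^ 2 + s ^ 2 = 4 * ρ ∧
      Z.re = - (-1) ^ k / a ∧ Z.im = s / a := by
  have hnR : (2 : ℝ) ≤ n := by exact_mod_cast hn
  have hx0 : 0 < |Z.re| := abs_pos.2 hx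
  set W : ℂ := Z.im - Z.re * I with hW
  have hZW : Z = I * W := by
    rw [hW]
    apply Complex.ext
    · simp
    · simp
  have hI : I ^ n = (-1 : ℂ) ^ k * I := by
    rw [hk, pow_succ, pow_mul, I_sq]
  have h1 : 2 * ((-1 : ℝ) ^ k * (W ^ n).im) = 1 := by
    have h2 : (Z ^ n).re = - ((-1 : ℝ) ^ k * (W ^ n).im) := by
      rw [hZW, mul_pow, hI]
      have e : (-1 : ℂ) ^ k * I * W ^ n = (((-1 : ℝ) ^ k : ℝ) : ℂ) * (I * W ^ n) := by
        push_cast
        ring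
      rw [e, re_ofReal_mul, I_mul_re]
      ring
    have h3 := congrArg Complex.re h
    rw [add_re, add_re, ← map_pow, conj_re, one_re, zero_re] at h3
    linarith
  -- the sign
  have hs : 4 * n ≤ Z.im / |Z.re| := by
    rw [le_div_iff₀ hx0]
    exact hw
  have hg := gi_ge (by omega) hs
  have hkk : ((-1 : ℝ) ^ k) = 1 ∨ ((-1 : ℝ) ^ k) = -1 := neg_one_pow_eq_or ℝ k
  have e0 : Z.im / |Z.re| * |Z.re| = Z.im := div_mul_cancel₀ _ hx0.ne'
  rcases lt_or_gt_of_ne hx with hneg | hpos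
  · -- `Z.re < 0`
    have eW : W = (|Z.re| : ℝ) * (((Z.im / |Z.re| : ℝ) : ℂ) + I) := by
      rw [hW, mul_add, ← ofReal_mul, mul_comm |Z.re|, e0, abs_of_neg hneg]
      push_cast
      ring
    have h2 : (W ^ n).im = |Z.re| ^ n * gi n (Z.im / |Z.re|) := by
      rw [eW, mul_pow, ← ofReal_pow, im_ofReal_mul]
      rfl
    have h3 : 0 < (W ^ n).im := by rw [h2]; positivity
    have h4 : ((-1 : ℝ) ^ k) = 1 := by
      rcases hkk with h4 | h4
      · exact h4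
      · rw [h4] at h1
        linarith
    rw [h4, one_mul, h2] at h1
    refine ⟨1 / |Z.re|, Z.im / |Z.re|, by positivity, hs, ?_, ?_, ?_, ?_⟩
    · rw [div_pow, one_pow, div_eq_iff (by positivity)]
      linarith
    · rw [h4]
      have e1 : (1 / |Z.re| - 1) ^ 2 + (Z.im / |Z.re|) ^ 2 =
          ((1 + Z.re) ^ 2 + Z.im ^ 2) / |Z.re| ^ 2 := by
        rw [abs_of_neg hneg]
        field_simp
        ring
      rw [e1, hρ, abs_of_neg hneg]
      field_simp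
      ring
    · rw [h4, abs_of_neg hneg]
      field_simp
    · field_simp
  · have eW : W = (|Z.re| : ℝ) * (starRingEnd ℂ) (((Z.im / |Z.re| : ℝ) : ℂ) + I) := by
      rw [map_add, conj_ofReal, conj_I, mul_add, ← ofReal_mul, mul_comm |Z.re|, e0,
        abs_of_pos hpos, hW]
      ring
    have h2 : (W ^ n).im = -(|Z.re| ^ n * gi n (Z.im / |Z.re|)) := by
      rw [eW, mul_pow, ← ofReal_pow, im_ofReal_mul, ← map_pow, conj_im]
      unfold gi
      ring
    have h3 : (W ^ n).im < 0 := by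
      rw [h2]
      have : 0 < |Z.re| ^ n * gi n (Z.im / |Z.re|) := by positivity
      linarith
    have h4 : ((-1 : ℝ) ^ k) = -1 := by
      rcases hkk with h4 | h4
      · rw [h4] at h1
        linarith
      · exact h4
    rw [h4, h2] at h1
    refine ⟨1 / |Z.re|, Z.im / |Z.re|, by positivity, hs, ?_, ?_, ?_, ?_⟩
    · rw [div_pow, one_pow, div_eq_iff (by positivity)]
      linarith
    · rw [h4]
      have e1 : (1 / |Z.re| - -1) ^ 2 + (Z.im / |Z.re|) ^ 2 =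
          ((1 + Z.re) ^ 2 + Z.im ^ 2) / |Z.re| ^ 2 := by
        rw [abs_of_pos hpos]
        field_simp
        ring
      rw [e1, hρ, abs_of_pos hpos]
      field_simp
      ring
    · rw [h4, abs_of_pos hpos]
      field_simp
    · field_simp

theorem im_uniq {n : ℕ} (hodd : Odd n) (hn : 2 ≤ n) {Z Z' : ℂ} (hy : 0 < Z.im) (hx : Z.re ≠ 0)
    (hw : 4 * n * |Z.re| ≤ Z.im) (h : 1 + Z ^ n + (starRingEnd ℂ) Z ^ n = 0)
    (hy' : 0 < Z'.im) (hx' : Z'.re ≠ 0)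
    (hw' : 4 * n * |Z'.re| ≤ Z'.im) (h' : 1 + Z' ^ n + (starRingEnd ℂ) Z' ^ n = 0) {ρ : ℝ}
    (hρ : (1 + Z.re) ^ 2 + Z.im ^ 2 = ρ * (2 * Z.re) ^ 2)
    (hρ' : (1 + Z'.re) ^ 2 + Z'.im ^ 2 = ρ * (2 * Z'.re) ^ 2) : Z = Z' := by
  obtain ⟨k, hk⟩ := hodd
  obtain ⟨a, s, h1, h2, h3, h4, h5, h6⟩ := form hk hn hy hx hw h hρ
  obtain ⟨a', s', h1', h2', h3', h4', h5', h6'⟩ := form hk hn hy' hx' hw' h' hρ'
  have hc : ((-1 : ℝ) ^ k) ≤ 1 := by
    rcases neg_one_pow_eq_or ℝ k with h7 | h7 <;> rw [h7]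
    norm_num
  obtain ⟨e1, e2⟩ := core_im hn h1 h1' h2 h2' h3 h3' hc (h4.trans h4'.symm)
  apply Complex.ext
  · rw [h5, h5', e2]
  · rw [h6, h6', e1, e2]

end Pool.Agent.H577.SQ
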