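import Pool.Agent.H577.SQ.Conjugate
import Pool.Agent.H577.SQ.ImUniq

set_option autoImplicit false

/-! # The number of solutions of small height -/

namespace Pool.Agent.H577.SQ

open NumberField IsDedekindDomain Pool.Agent.W7.FH Pool.Agent.H577.UQ Height ComplexConjugate

lemma Emb.swap {K : Type} [Field K] [NumberField K] {σ τ : K →ₐ[ℚ] ℂ} {s : K ≃ₐ[ℚ] K}
    (h : Emb K σ τ s) : Emb K τ σ s where
  ne := h.ne.symm
  mem := fun ρ => (h.mem ρ).symm
  norm := fun x => by rw [h.norm, mul_comm]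
  normC := fun x => by rw [h.normC, mul_comm]
  trC := fun x => by rw [h.trC, add_comm]
  s_ne := h.s_ne
  s_eq := fun x => by rw [← h.s_eq, h.s_inv]
  s_inv := h.s_inv

theorem setup' (K : Type) [Field K] [NumberField K] (hK : Module.finrank ℚ K = 2) (φ : K →+* ℂ) :
    ∃ (σ τ : K →ₐ[ℚ] ℂ) (s : K ≃ₐ[ℚ] K), (∀ x, σ x = φ x) ∧ Emb K σ τ s ∧
      ((∃ f g : K →+* ℝ, (∀ x, ((f x : ℝ) : ℂ) = σ x) ∧ (∀ x, ((g x : ℝ) : ℂ) = τ x)) ∨
       (∀ x, τ x = conj (σ x))) := by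
  obtain ⟨σ, τ, s, hE, hcase⟩ := setup K hK
  let ψ : K →ₐ[ℚ] ℂ := RingHom.equivRatAlgHom K ℂ φ
  have hψ : ∀ x, ψ x = φ x := fun x => rfl
  rcases hE.mem ψ with h1 | h1
  · refine ⟨σ, τ, s, fun x => by rw [← h1, hψ], hE, ?_⟩
    rcases hcase with h2 | ⟨h2, -⟩
    · exact Or.inl h2
    · exact Or.inr h2
  · refine ⟨τ, σ, s, fun x => by rw [← h1, hψ], hE.swap, ?_⟩
    rcases hcase with ⟨f, g, hf, hg⟩ | ⟨h2, -⟩
    · exact Or.inl ⟨g, f, hg, hf⟩
    · right
      intro x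
      rw [h2, Complex.conj_conj]

/-- the point with projective coordinates `v 0 : v 1 : - v 2` -/
noncomputable def pnt (v : Fin 3 → ℂ) : ℂ × ℂ := (-(v 0) / v 2, -(v 1) / v 2)

lemma pnt_mul {c : ℂ} (hc : c ≠ 0) (v w : Fin 3 → ℂ) (h : ∀ i, w i = v i * c) :
    pnt w = pnt v := by
  unfold pnt
  rw [h 0, h 1, h 2, ← neg_mul, ← neg_mul, mul_div_mul_right _ _ hc, mul_div_mul_right _ _ hc]

/-- a real point -/
def RelR (n : ℕ) (P : ℂ × ℂ) (e1 e2 : Equiv.Perm (Fin 3)) (r : Fin 3 → ℕ) : Prop :=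
  Gap n (r ∘ e1) ∧ ∃ lam1 mu1 lam2 mu2 H : ℝ,
    RD n (r ∘ e1) (e1.trans e2.symm) lam1 mu1 lam2 mu2 H ∧
    P = pnt (fun i => ((![1, -lam1, -mu1] (e1.symm i) : ℝ) : ℂ))

/-- a complex point -/
def RelC (n : ℕ) (P : ℂ × ℂ) (o : Fin 3) (q r : ℕ) (b : Bool) : Prop :=
  ∃ B : ℂ, B.im ≠ 0 ∧ B.re ≠ 0 ∧ 4 * n * |B.re| ≤ |B.im| ∧ 1 + B ^ n + conj B ^ n = 0 ∧
    (1 + B.re) ^ 2 + B.im ^ 2 = ((r : ℝ) ^ n / (q : ℝ) ^ n) * (2 * B.re) ^ 2 ∧
    (b = true ↔ 0 < B.im) ∧ P = pnt (fun i => ![1, B, conj B] (i - o))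

lemma RelR.unique {n : ℕ} (hn : 5 ≤ n) {P P' : ℂ × ℂ} {e1 e2 : Equiv.Perm (Fin 3)}
    {r : Fin 3 → ℕ} (h : RelR n P e1 e2 r) (h' : RelR n P' e1 e2 r) : P = P' := by
  obtain ⟨hg, lam1, mu1, lam2, mu2, H, hRD, hP⟩ := h
  obtain ⟨-, lam1', mu1', lam2', mu2', H', hRD', hP'⟩ := h'
  obtain ⟨e1, e2⟩ := uniq hRD hRD' hn hg
  rw [hP, hP', e1, e2]

lemma RelC.unique {n : ℕ} (hn : 5 ≤ n) (hodd : Odd n) {P P' : ℂ × ℂ} {o : Fin 3} {q r : ℕ}
    {b : Bool} (h : RelC n P o q r b) (h' : RelC n P' o q r b) : P = P' := by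
  obtain ⟨B, h1, h2, h3, h4, h5, h6, h7⟩ := h
  obtain ⟨B', h1', h2', h3', h4', h5', h6', h7'⟩ := h'
  have key : B = B' := by
    by_cases hb : 0 < B.im
    · have hb' : 0 < B'.im := h6'.1 (h6.2 hb)
      rw [abs_of_pos hb] at h3
      rw [abs_of_pos hb'] at h3'
      exact im_uniq hodd (by omega) hb h2 h3 h4 hb' h2' h3' h4' h5 h5'
    · have hb' : ¬ 0 < B'.im := fun h0 => hb (h6.1 (h6'.2 h0))
      have c1 : B.im < 0 := lt_of_le_of_ne (not_lt.1 hb) h1
      have c2 : B'.im < 0 := lt_of_le_of_ne (not_lt.1 hb') h1'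
      rw [abs_of_neg c1] at h3
      rw [abs_of_neg c2] at h3'
      have g := im_uniq hodd (by omega) (Z := conj B) (Z' := conj B') (ρ := (r : ℝ) ^ n / (q : ℝ) ^ n)
        (by rw [Complex.conj_im]; linarith) (by rw [Complex.conj_re]; exact h2)
        (by rw [Complex.conj_re, Complex.conj_im]; exact h3)
        (by rw [Complex.conj_conj]; linear_combination h4)
        (by rw [Complex.conj_im]; linarith) (by rw [Complex.conj_re]; exact h2')
        (by rw [Complex.conj_re, Complex.conj_im]; exact h3')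
        (by rw [Complex.conj_conj]; linear_combination h4')
        (by rw [Complex.conj_re, Complex.conj_im, neg_sq]; exact h5)
        (by rw [Complex.conj_re, Complex.conj_im, neg_sq]; exact h5')
      have g2 := congrArg conj g
      rwa [Complex.conj_conj, Complex.conj_conj] at g2
  rw [h7, h7', key]

/-- every solution has a code -/
theorem exists_code (K : Type) [Field K] [NumberField K] (hK : Module.finrank ℚ K = 2)
    {n Q : ℕ} (h5 : 5 ≤ n) (h6 : Nat.Coprime n 6)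
    (hQ1 : 2 * Q ≤ n.minFac) (hQ : (Q : ℝ) * (2 * Real.log n + 5) ≤ n)
    (t : Fin 3 → K) (ht : ∀ i, t i ≠ 0) (hF : (t 0) ^ n + (t 1) ^ n + (t 2) ^ n = 0)
    (hH : 4 * mulHeight ![t 0, t 1, t 2] < (Q : ℝ) ^ n)
    (hnt : ¬ (t 0 + t 1 + t 2 = 0 ∧ (t 0) ^ 2 + t 0 * t 1 + (t 1) ^ 2 = 0)) (φ : K →+* ℂ) :
    (∃ (e1 e2 : Equiv.Perm (Fin 3)) (r : Fin 3 → ℕ), (∀ i, r i < Q) ∧
      RelR n (pnt fun i => φ (t i)) e1 e2 r) ∨
    ∃ (o : Fin 3) (q r : ℕ) (b : Bool), q < Q ∧ r < Q ∧ RelC n (pnt fun i => φ (t i)) o q r b := by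
  have hm : ∀ p : ℕ, p.Prime → p ∣ n → Module.finrank ℚ K + 1 < p := by
    rw [hK]; exact prime_gt_three h6
  have hodd : Odd n := odd_of_big Module.finrank_pos hm
  have hn0 : n ≠ 0 := by omega
  obtain ⟨r, hHf, hr, hU, hsplit⟩ := norms K hK h5 h6 t ht hF (minFac_bound h5 hQ1 hH)
  have hreq : ¬ ∀ i j, r i = r j := fun h1 =>
    hnt (unit_case hK (by omega) hodd (ht 0) (ht 1) (ht 2) hF (hU h1))
  obtain ⟨σ, τ, s, hσφ, hE, hcase⟩ := setup' K hK φ
  rcases hcase with ⟨f, g, hf, hg⟩ | hτ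
  · left
    have hFf : ∀ f : K →+* ℝ, f (t 0) ^ n + f (t 1) ^ n + f (t 2) ^ n = 0 := by
      intro f
      rw [← map_pow, ← map_pow, ← map_pow, ← map_add, ← map_add, hF, map_zero]
    have htf : ∀ (f : K →+* ℝ) i, f (t i) ≠ 0 := fun f i => (map_ne_zero f).2 (ht i)
    obtain ⟨e1, lam1, mu1, n1⟩ := exists_nf hodd (htf f) (hFf f)
    obtain ⟨e2, lam2, mu2, n2⟩ := exists_nf hodd (htf g) (hFf g)
    have hfn : ∀ x, ‖σ x‖ = |f x| := by
      intro x
      rw [← hf, Complex.norm_real, Real.norm_eq_abs]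
    have hgn : ∀ x, ‖τ x‖ = |g x| := by
      intro x
      rw [← hg, Complex.norm_real, Real.norm_eq_abs]
    have hRD := real_data hodd f g σ τ hE.ne hE.mem hfn hgn hE.norm t ht r hHf
      (fun i => (hr i).2) n1 n2
    have hle : ∀ j, (r j : ℝ) ^ n ≤ 4 * mulHeight ![t 0, t 1, t 2] := by
      intro j
      have h1 := hRD.le hn0 (e1.symm j)
      rwa [Function.comp_apply, Equiv.apply_symm_apply] at h1
    have hrQ : ∀ i, r i < Q := by
      intro i
      have h1 := (hle i).trans_lt hH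
      have h2 := lt_of_pow_lt_pow_left₀ n (by positivity) h1
      exact_mod_cast h2
    refine ⟨e1, e2, r, hrQ, gap_of_lt (by omega) hQ (fun i => (hr _).1) (fun i => hrQ _),
      lam1, mu1, lam2, mu2, _, hRD, ?_⟩
    apply pnt_mul (c := ((f (t (e1 0)) : ℝ) : ℂ)) (by exact_mod_cast htf f _)
    intro i
    obtain ⟨k, rfl⟩ := e1.surjective i
    rw [Equiv.symm_apply_apply, ← hσφ, ← hf]
    fin_cases k
    · change ((f (t (e1 0)) : ℝ) : ℂ) = ((1 : ℝ) : ℂ) * _
      push_cast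
      ring
    · change ((f (t (e1 1)) : ℝ) : ℂ) = ((-lam1 : ℝ) : ℂ) * _
      rw [n1.t1]
      push_cast
      ring
    · change ((f (t (e1 2)) : ℝ) : ℂ) = ((-mu1 : ℝ) : ℂ) * _
      rw [n1.t2]
      push_cast
      ring
  · right
    obtain ⟨hle, o, h1, h2, h3, -, h4, h7, h8⟩ :=
      imag_main hE hτ h5 hodd hQ t ht hF hH r hHf hr hreq
    have hrQ : ∀ i, r i < Q := by
      intro i
      have h1 := (hle i).trans_lt hH
      have h2 := lt_of_pow_lt_pow_left₀ n (by positivity) h1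
      exact_mod_cast h2
    have hto := ht o
    have hconj : σ (t (o + 2) / t o) = conj (σ (t (o + 1) / t o)) := by
      rw [← h1, hE.s_eq, hτ]
    classical
    refine ⟨o, r o, r (o + 2), decide (0 < (σ (t (o + 1) / t o)).im), hrQ _, hrQ _,
      σ (t (o + 1) / t o), h4, h7, h8, ?_, ?_, decide_eq_true_iff, ?_⟩
    · rw [← hconj, ← map_pow, ← map_pow, ← map_one σ, ← map_add, ← map_add]
      have h9 := fermat_cyc t hF o
      have h10 : 1 + (t (o + 1) / t o) ^ n + (t (o + 2) / t o) ^ n = 0 := by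
        rw [div_pow, div_pow]
        field_simp
        linear_combination h9
      rw [h10, map_zero]
    · have h9 := norm_rel hE t ht r hHf hr h1
      have h10 : ((|Algebra.norm ℚ (1 + t (o + 1) / t o)| : ℚ) : ℝ) =
          (1 + (σ (t (o + 1) / t o)).re) ^ 2 + (σ (t (o + 1) / t o)).im ^ 2 := by
        rw [hE.norm, hτ, Complex.norm_conj, ← sq, ← Complex.normSq_eq_norm_sq, map_add, map_one,
          Complex.normSq_apply]
        simp only [Complex.add_re, Complex.one_re, Complex.add_im, Complex.one_im, zero_add]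
        ring
      have h11 : ((Algebra.trace ℚ K (t (o + 1) / t o) : ℚ) : ℝ) =
          2 * (σ (t (o + 1) / t o)).re := by
        have h12 := hE.trC (t (o + 1) / t o)
        rw [hτ, Complex.add_conj] at h12
        exact_mod_cast h12
      have h12 := congrArg (fun x : ℚ => (x : ℝ)) h9
      simp only [Rat.cast_mul, Rat.cast_pow, Rat.cast_natCast] at h12
      rw [h10, h11] at h12
      have h13 : (0 : ℝ) < (r o : ℝ) ^ n := by
        have : (0 : ℝ) < r o := by exact_mod_cast (hr o).1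
        positivity
      rw [div_mul_eq_mul_div, eq_div_iff h13.ne']
      exact h12
    · apply pnt_mul (c := σ (t o)) ((map_ne_zero σ).2 hto)
      intro i
      rw [← hσφ]
      have a1 : ∀ i : Fin 3, i + 1 - i = 1 := by decide
      have a2 : ∀ i : Fin 3, i + 2 - i = 2 := by decide
      rcases fin3_cases o i with rfl | rfl | rfl
      · rw [sub_self]
        change σ (t i) = 1 * σ (t i)
        rw [one_mul]
      · rw [a1]
        change σ (t (o + 1)) = σ (t (o + 1) / t o) * σ (t o)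
        rw [← map_mul]
        congr 1
        field_simp
      · rw [a2]
        change σ (t (o + 2)) = conj (σ (t (o + 1) / t o)) * σ (t o)
        rw [← hconj, ← map_mul]
        congr 1
        field_simp

/-- the codes -/
abbrev Code (Q : ℕ) : Type :=
  (Equiv.Perm (Fin 3) × Equiv.Perm (Fin 3) × (Fin 3 → Fin Q)) ⊕ (Fin 3 × Fin Q × Fin Q × Bool)

lemma card_code (Q : ℕ) : Fintype.card (Code Q) = 36 * Q ^ 3 + 6 * Q ^ 2 := by
  rw [Fintype.card_sum, Fintype.card_prod, Fintype.card_prod, Fintype.card_prod, Fintype.card_prod,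
    Fintype.card_prod, Fintype.card_perm, Fintype.card_fun, Fintype.card_fin, Fintype.card_fin,
    Fintype.card_bool]
  have : Nat.factorial 3 = 6 := rfl
  rw [this]
  ring

/-- a set in which every point has a code is small -/
lemma card_le {n Q : ℕ} (hn : 5 ≤ n) (hodd : Odd n) (S : Set (ℂ × ℂ))
    (hS : ∀ P ∈ S, (∃ (e1 e2 : Equiv.Perm (Fin 3)) (r : Fin 3 → ℕ), (∀ i, r i < Q) ∧
      RelR n P e1 e2 r) ∨
      ∃ (o : Fin 3) (q r : ℕ) (b : Bool), q < Q ∧ r < Q ∧ RelC n P o q r b) :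
    S.Finite ∧ S.ncard ≤ 36 * Q ^ 3 + 6 * Q ^ 2 := by
  classical
  let Rel : ℂ × ℂ → Code Q → Prop := fun P c => match c with
    | Sum.inl (e1, e2, r) => RelR n P e1 e2 (fun i => (r i : ℕ))
    | Sum.inr (o, q, r, b) => RelC n P o q r b
  have hex : ∀ P : S, ∃ c : Code Q, Rel P c := by
    rintro ⟨P, hP⟩
    rcases hS P hP with ⟨e1, e2, r, hr, h⟩ | ⟨o, q, r, b, hq, hr, h⟩
    · exact ⟨Sum.inl (e1, e2, fun i => ⟨r i, hr i⟩), h⟩
    · exact ⟨Sum.inr (o, ⟨q, hq⟩, ⟨r, hr⟩, b), h⟩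
  choose F hF using hex
  have hinj : Function.Injective F := by
    intro P P' h
    have h1 := hF P
    have h2 := hF P'
    rw [← h] at h2
    apply Subtype.ext
    rcases hc : F P with ⟨e1, e2, r⟩ | ⟨o, q, r, b⟩
    · rw [hc] at h1 h2
      exact RelR.unique hn h1 h2
    · rw [hc] at h1 h2
      exact RelC.unique hn hodd h1 h2
  have hfin : Finite S := Finite.of_injective F hinj
  refine ⟨hfin, ?_⟩
  rw [← card_code, ← Nat.card_coe_set_eq, ← Nat.card_eq_fintype_card]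
  exact Nat.card_le_card_of_injective F hinj

end Pool.Agent.H577.SQ
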