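import Mathlib

set_option autoImplicit false

/-! # The sums of two coordinates at a real place are monotone functions -/

namespace Pool.Agent.H577.SQ

/-- a normalised real point: `1 = lam ^ n + mu ^ n` -/
structure NP (n : ℕ) (lam mu : ℝ) : Prop where
  mu_pos : 0 < mu
  le : mu ≤ lam
  eq : lam ^ n + mu ^ n = 1

namespace NP

variable {n : ℕ} {lam mu lam' mu' : ℝ}

lemma lam_pos (h : NP n lam mu) : 0 < lam := h.mu_pos.trans_le h.le

lemma lam_lt (h : NP n lam mu) (hn : n ≠ 0) : lam < 1 := by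
  by_contra hcon
  have h1 : 1 ≤ lam ^ n := one_le_pow₀ (not_lt.1 hcon)
  have h2 : 0 < mu ^ n := pow_pos h.mu_pos n
  linarith [h.eq]

lemma mu_lt (h : NP n lam mu) (hn : n ≠ 0) : mu < 1 := h.le.trans_lt (h.lam_lt hn)

lemma one_le_sum (h : NP n lam mu) (hn : n ≠ 0) : 1 ≤ lam + mu := by
  have h6 : lam ^ n ≤ lam := pow_le_of_le_one h.lam_pos.le (h.lam_lt hn).le hn
  have h7 : mu ^ n ≤ mu := pow_le_of_le_one h.mu_pos.le (h.mu_lt hn).le hn
  linarith [h.eq]

lemma mu_pow_le (h : NP n lam mu) : mu ^ n ≤ 1 / 2 := by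
  have h6 : mu ^ n ≤ lam ^ n := pow_le_pow_left₀ h.mu_pos.le h.le n
  linarith [h.eq]

lemma bern {x : ℝ} (hx : 0 ≤ x) (n : ℕ) : 1 - x ^ n ≤ n * (1 - x) := by
  have := one_add_mul_le_pow (a := x - 1) (by linarith) n
  have h2 : 1 + (n : ℝ) * (x - 1) ≤ x ^ n := by simpa using this
  nlinarith

lemma one_sub_mu (h : NP n lam mu) (hn : n ≠ 0) : 1 ≤ 2 * n * (1 - mu) := by
  have h1 := bern h.mu_pos.le n
  have h2 := h.mu_pow_le
  linarith

lemma mu_pow_le_one_sub_lam (h : NP n lam mu) : mu ^ n ≤ n * (1 - lam) := by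
  have h1 := bern h.lam_pos.le n
  linarith [h.eq]

lemma lam_anti (h : NP n lam mu) (h' : NP n lam' mu') (hn : n ≠ 0) (hlt : mu < mu') :
    lam' < lam := by
  have h1 : mu ^ n < mu' ^ n := pow_lt_pow_left₀ hlt h.mu_pos.le hn
  have h2 : lam' ^ n < lam ^ n := by linarith [h.eq, h'.eq]
  exact lt_of_pow_lt_pow_left₀ n h.lam_pos.le h2

lemma lam_eq (h : NP n lam mu) (h' : NP n lam' mu') (hn : n ≠ 0) (he : mu = mu') :
    lam = lam' := by
  have h2 : lam ^ n = lam' ^ n := by rw [he] at h; linarith [h.eq, h'.eq]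
  exact (pow_left_inj₀ h.lam_pos.le h'.lam_pos.le hn).1 h2

lemma sum_mono (h : NP n lam mu) (h' : NP n lam' mu') (hn : 2 ≤ n) (hlt : mu < mu') :
    lam + mu < lam' + mu' := by
  have hl := h.lam_anti h' (by omega) hlt
  have g1 := (Commute.all lam lam').geom_sum₂_mul n
  have g2 := (Commute.all mu' mu).geom_sum₂_mul n
  set A := ∑ i ∈ Finset.range n, lam ^ i * lam' ^ (n - 1 - i) with hA
  set B := ∑ i ∈ Finset.range n, mu' ^ i * mu ^ (n - 1 - i) with hB
  have hlp := h.lam_pos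
  have hlp' := h'.lam_pos
  have hmp := h.mu_pos
  have hmp' := h'.mu_pos
  have key : A * (lam - lam') = B * (mu' - mu) := by
    rw [g1, g2]
    linarith [h.eq, h'.eq]
  have hBA : B < A := by
    rw [hA, hB]
    apply Finset.sum_lt_sum
    · intro i hi
      have h1 : mu' ^ i ≤ lam ^ i := pow_le_pow_left₀ hmp'.le (h'.le.trans hl.le) i
      have h2 : mu ^ (n - 1 - i) ≤ lam' ^ (n - 1 - i) :=
        pow_le_pow_left₀ hmp.le (hlt.le.trans h'.le) _
      gcongr
    · refine ⟨0, Finset.mem_range.2 (by omega), ?_⟩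
      rw [pow_zero, pow_zero, one_mul, one_mul]
      exact pow_lt_pow_left₀ (hlt.trans_le h'.le) hmp.le (by omega)
  have hB0 : 0 < B := by
    rw [hB]
    apply Finset.sum_pos
    · intro i hi
      positivity
    · exact ⟨0, Finset.mem_range.2 (by omega)⟩
  have h1 : B * (lam - lam') < B * (mu' - mu) := by
    rw [← key]
    exact mul_lt_mul_of_pos_right hBA (by linarith)
  have h2 := lt_of_mul_lt_mul_left h1 hB0.le
  linarith

lemma w_ratio (h : NP n lam mu) (h' : NP n lam' mu') (hn : n ≠ 0) (hlt : mu < mu') :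
    (1 - lam) * mu' ^ n ≤ (1 - lam') * mu ^ n := by
  have hl := h.lam_anti h' hn hlt
  have hl1 := h.lam_lt hn
  have hl1' := h'.lam_lt hn
  have hlp' := h'.lam_pos
  have g1 := geom_sum_mul lam n
  have g2 := geom_sum_mul lam' n
  have e1 : mu ^ n = (∑ i ∈ Finset.range n, lam ^ i) * (1 - lam) := by linarith [h.eq]
  have e2 : mu' ^ n = (∑ i ∈ Finset.range n, lam' ^ i) * (1 - lam') := by linarith [h'.eq]
  have h3 : (∑ i ∈ Finset.range n, lam' ^ i) ≤ ∑ i ∈ Finset.range n, lam ^ i :=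
    Finset.sum_le_sum fun i _ => pow_le_pow_left₀ hlp'.le hl.le i
  rw [e1, e2]
  have h4 : 0 ≤ (1 - lam) * (1 - lam') := mul_nonneg (by linarith) (by linarith)
  nlinarith [mul_le_mul_of_nonneg_left h3 h4]

/-- `(lam + mu) / (1 - mu)` increases -/
lemma f1 (h : NP n lam mu) (h' : NP n lam' mu') (hn : 2 ≤ n) (hlt : mu < mu') :
    (lam + mu) * (1 - mu') < (lam' + mu') * (1 - mu) := by
  have h1 := h.sum_mono h' hn hlt
  have h2 := h'.mu_lt (by omega)
  have h3 := h.one_le_sum (by omega)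
  nlinarith

/-- `(1 - lam) / (lam + mu)` increases -/
lemma f2 (h : NP n lam mu) (h' : NP n lam' mu') (hn : 2 ≤ n) (hlt : mu < mu') :
    (1 - lam) * (lam' + mu') < (1 - lam') * (lam + mu) := by
  have hl := h.lam_anti h' (by omega) hlt
  have hl1 := h.lam_lt (by omega)
  have hl1' := h'.lam_lt (by omega)
  have hmp := h.mu_pos
  have hmp' := h'.mu_pos
  have hlp := h.lam_pos
  have hlp' := h'.lam_pos
  have h1 := h.w_ratio h' (by omega) hlt
  have h2 : (lam' + mu') * mu ≤ (lam + mu) * mu' := by nlinarith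
  have h3 : mu ^ (n - 1) < mu' ^ (n - 1) := pow_lt_pow_left₀ hlt hmp.le (by omega)
  have e1 : mu ^ n = mu ^ (n - 1) * mu := by
    rw [← pow_succ, show n - 1 + 1 = n by omega]
  have e2 : mu' ^ n = mu' ^ (n - 1) * mu' := by
    rw [← pow_succ, show n - 1 + 1 = n by omega]
  have hc : 0 < mu * mu' ^ n := by positivity
  apply lt_of_mul_lt_mul_right _ hc.le
  have h4 : ((1 - lam) * mu' ^ n) * ((lam' + mu') * mu) ≤
      ((1 - lam') * mu ^ n) * ((lam + mu) * mu') := by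
    apply mul_le_mul h1 h2 (by positivity)
    have : 0 < 1 - lam' := by linarith
    positivity
  have h5 : ((1 - lam') * (lam + mu) * (mu * mu')) * mu ^ (n - 1) <
      ((1 - lam') * (lam + mu) * (mu * mu')) * mu' ^ (n - 1) := by
    apply mul_lt_mul_of_pos_left h3
    have : 0 < 1 - lam' := by linarith
    positivity
  calc (1 - lam) * (lam' + mu') * (mu * mu' ^ n) =
        ((1 - lam) * mu' ^ n) * ((lam' + mu') * mu) := by ring
    _ ≤ ((1 - lam') * mu ^ n) * ((lam + mu) * mu') := h4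
    _ = ((1 - lam') * (lam + mu) * (mu * mu')) * mu ^ (n - 1) := by rw [e1]; ring
    _ < ((1 - lam') * (lam + mu) * (mu * mu')) * mu' ^ (n - 1) := h5
    _ = (1 - lam') * (lam + mu) * (mu * mu' ^ n) := by rw [e2]; ring

/-- `(1 - lam) / (1 - mu)` increases -/
lemma f3 (h : NP n lam mu) (h' : NP n lam' mu') (hn : 2 ≤ n) (hlt : mu < mu') :
    (1 - lam) * (1 - mu') < (1 - lam') * (1 - mu) := by
  have hl := h.lam_anti h' (by omega) hlt
  have hl1 := h.lam_lt (by omega)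
  have h2 := h'.mu_lt (by omega)
  nlinarith

lemma pow_aux {k : ℕ} (hk : 1 ≤ k) (hmp : 0 < mu) (hlt : mu < mu') (h : mu < k * (1 - mu')) :
    (1 - mu) * mu ^ k < (1 - mu') * mu' ^ k := by
  have hkR : (1 : ℝ) ≤ k := by exact_mod_cast hk
  have h0 : 0 < 1 - mu' := by
    by_contra hcon
    have h1 : (k : ℝ) * (1 - mu') ≤ 0 := mul_nonpos_of_nonneg_of_nonpos (by linarith) (not_lt.1 hcon)
    linarith
  have h1 : 1 + (k : ℝ) * ((mu' - mu) / mu) ≤ (mu' / mu) ^ k := by
    have h2 := one_add_mul_le_pow (a := (mu' - mu) / mu) (by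
      have : 0 < (mu' - mu) / mu := div_pos (by linarith) hmp
      linarith) k
    have e1 : 1 + (mu' - mu) / mu = mu' / mu := by
      field_simp
      ring
    rwa [e1] at h2
  rw [div_pow, le_div_iff₀ (by positivity)] at h1
  have h2 : (1 - mu) < (1 - mu') * (1 + (k : ℝ) * ((mu' - mu) / mu)) := by
    have e2 : (1 - mu') * (1 + (k : ℝ) * ((mu' - mu) / mu)) =
        (1 - mu') + (k * (1 - mu')) * ((mu' - mu) / mu) := by ring
    have h3 : mu * ((mu' - mu) / mu) < (k * (1 - mu')) * ((mu' - mu) / mu) :=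
      mul_lt_mul_of_pos_right h (div_pos (by linarith) hmp)
    have e3 : mu * ((mu' - mu) / mu) = mu' - mu := by field_simp
    rw [e2]
    linarith
  have h3 : 0 < mu ^ k := pow_pos hmp k
  calc (1 - mu) * mu ^ k < ((1 - mu') * (1 + (k : ℝ) * ((mu' - mu) / mu))) * mu ^ k :=
        mul_lt_mul_of_pos_right h2 h3
    _ = (1 - mu') * ((1 + (k : ℝ) * ((mu' - mu) / mu)) * mu ^ k) := by ring
    _ ≤ (1 - mu') * mu' ^ k := by gcongr

lemma small_mu (hn : 5 ≤ n) {x : ℝ} (hx : 0 < x) (hs : x ^ n ≤ 2 / 25) :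
    x < ((n - 2 : ℕ) : ℝ) * (1 - x) := by
  by_contra hcon
  push Not at hcon
  have hk : (3 : ℝ) ≤ ((n - 2 : ℕ) : ℝ) := by exact_mod_cast (by omega : 3 ≤ n - 2)
  have hnk : (n : ℝ) = ((n - 2 : ℕ) : ℝ) + 2 := by
    rw [Nat.cast_sub (by omega)]
    push_cast
    ring
  set k : ℝ := ((n - 2 : ℕ) : ℝ) with hkd
  have h1 : k ≤ (k + 1) * x := by linarith
  have h2 : -(1 / k) ≤ Real.log x := by
    have h3 := Real.one_sub_inv_le_log_of_pos hx
    have h4 : x⁻¹ ≤ (k + 1) / k := by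
      rw [inv_eq_one_div, div_le_div_iff₀ hx (by linarith)]
      linarith
    have h5 : (k + 1) / k = 1 + 1 / k := by
      field_simp
    rw [h5] at h4
    linarith
  have h3 : Real.exp (-2) ≤ x ^ n := by
    rw [← Real.exp_log (pow_pos hx n), Real.log_pow]
    apply Real.exp_le_exp.2
    have h4 : (n : ℝ) * (1 / k) ≤ 2 := by
      rw [hnk]
      have h5 : (k + 2) * (1 / k) = (k + 2) / k := by ring
      rw [h5, div_le_iff₀ (by linarith)]
      linarith
    have h5 : (n : ℝ) * (-(1 / k)) ≤ n * Real.log x := by gcongr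
    linarith
  have h4 : (2 : ℝ) / 25 < Real.exp (-2) := by
    rw [Real.exp_neg, lt_inv_comm₀ (by norm_num) (Real.exp_pos _)]
    have h5 := Real.exp_one_lt_d9
    have h6 : Real.exp 2 = Real.exp 1 ^ 2 := by
      rw [← Real.exp_nat_mul]
      norm_num
    rw [h6]
    have h7 := Real.exp_pos 1
    nlinarith
  linarith

/-- `(1 - lam) (1 - mu) / (lam + mu) ^ 2` increases while `mu ^ n` is small -/
lemma f4 (h : NP n lam mu) (h' : NP n lam' mu') (hn : 5 ≤ n) (hlt : mu < mu')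
    (hs : mu' ^ n ≤ 2 / 25) :
    (1 - mu) * (1 - lam) * (lam' + mu') ^ 2 < (1 - mu') * (1 - lam') * (lam + mu) ^ 2 := by
  have hl := h.lam_anti h' (by omega) hlt
  have hl1 := h.lam_lt (by omega)
  have hl1' := h'.lam_lt (by omega)
  have hm1 := h.mu_lt (by omega)
  have hmp := h.mu_pos
  have hmp' := h'.mu_pos
  have hlp := h.lam_pos
  have hlp' := h'.lam_pos
  have h1 := h.w_ratio h' (by omega) hlt
  have h2 : (lam' + mu') * mu ≤ (lam + mu) * mu' := by nlinarith
  have h3 : (1 - mu) * mu ^ (n - 2) < (1 - mu') * mu' ^ (n - 2) := by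
    apply pow_aux (by omega) hmp hlt
    exact hlt.trans (small_mu hn hmp' hs)
  have e1 : mu ^ n = mu ^ (n - 2) * mu ^ 2 := by
    rw [← pow_add, show n - 2 + 2 = n by omega]
  have e2 : mu' ^ n = mu' ^ (n - 2) * mu' ^ 2 := by
    rw [← pow_add, show n - 2 + 2 = n by omega]
  have p1 : 0 < 1 - lam := by linarith
  have p2 : 0 < 1 - lam' := by linarith
  have p3 : 0 < 1 - mu := by linarith
  have hc : 0 < mu ^ 2 * mu' ^ n := by positivity
  apply lt_of_mul_lt_mul_right _ hc.le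
  have h4 : ((1 - lam) * mu' ^ n) * ((lam' + mu') * mu) ^ 2 ≤
      ((1 - lam') * mu ^ n) * ((lam + mu) * mu') ^ 2 := by
    apply mul_le_mul h1 _ (by positivity) (by positivity)
    apply pow_le_pow_left₀ (by positivity) h2
  have h5 : ((1 - lam') * (lam + mu) ^ 2 * (mu ^ 2 * mu' ^ 2)) * ((1 - mu) * mu ^ (n - 2)) <
      ((1 - lam') * (lam + mu) ^ 2 * (mu ^ 2 * mu' ^ 2)) * ((1 - mu') * mu' ^ (n - 2)) := by
    apply mul_lt_mul_of_pos_left h3
    positivity
  calc (1 - mu) * (1 - lam) * (lam' + mu') ^ 2 * (mu ^ 2 * mu' ^ n) =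
        (1 - mu) * (((1 - lam) * mu' ^ n) * ((lam' + mu') * mu) ^ 2) := by ring
    _ ≤ (1 - mu) * (((1 - lam') * mu ^ n) * ((lam + mu) * mu') ^ 2) := by gcongr
    _ = ((1 - lam') * (lam + mu) ^ 2 * (mu ^ 2 * mu' ^ 2)) * ((1 - mu) * mu ^ (n - 2)) := by
        rw [e1]; ring
    _ < ((1 - lam') * (lam + mu) ^ 2 * (mu ^ 2 * mu' ^ 2)) * ((1 - mu') * mu' ^ (n - 2)) := h5
    _ = (1 - mu') * (1 - lam') * (lam + mu) ^ 2 * (mu ^ 2 * mu' ^ n) := by rw [e2]; ring

end NP

end Pool.Agent.H577.SQ
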