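import Pool.Agent.H577.SQ.Count

set_option autoImplicit false

/-! # From `x ^ n + y ^ n = z ^ n` to the symmetric form -/

namespace Pool.Agent.H577.SQ

open NumberField Height

lemma mulHeight_neg {K : Type} [Field K] [NumberField K] {x : K} (hx : x ≠ 0) (y z : K) :
    mulHeight ![x, y, -z] = mulHeight ![x, y, z] := by
  have h1 : ∀ w : K, ![x, y, w] ≠ 0 := fun w h0 => hx (congrFun h0 0)
  rw [NumberField.mulHeight_eq (h1 _), NumberField.mulHeight_eq (h1 _)]
  congr 1
  · refine Finset.prod_congr rfl fun v _ => ?_
    congr 1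
    refine iSup_congr fun i => ?_
    fin_cases i
    · rfl
    · rfl
    · exact v.1.map_neg z
  · refine finprod_congr fun v => ?_
    refine iSup_congr fun i => ?_
    fin_cases i
    · rfl
    · rfl
    · exact v.1.map_neg z

end Pool.Agent.H577.SQ
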