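import Pool.Agent.H577.SQ.Conj

set_option autoImplicit false

/-! # The swap lemma: two sums of the same absolute value -/

namespace Pool.Agent.H577.SQ

open Pool.Agent.H577.UQ ComplexConjugate

/-- the case `X + Y = conj (Z + X)` -/
lemma swap_aux {n : ℕ} (hn : Odd n) {X Y Z : ℂ} (hY : Y ≠ 0)
    (h : X ^ n + Y ^ n + Z ^ n = 0) {M : ℝ} (hM : M ≤ max (max ‖X‖ ‖Y‖) ‖Z‖)
    (hd : ‖Y + Z‖ ≤ M / (5 * n)) (hS : X + Y = conj (Z + X)) :
    conj X = X ∧ conj Y = Z := by
  have hn1 : 1 ≤ n := hn.pos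
  have hnR : (1 : ℝ) ≤ n := by exact_mod_cast hn1
  obtain ⟨u, w, hu, eZ, eY, hw, hXu, -⟩ := near_line hn hY h hM hd
  have hup : 0 < ‖u‖ := norm_pos_iff.2 hu
  have hcS : conj (X + Y) = Z + X := by rw [hS, Complex.conj_conj]
  have hSc : conj (Z + X) = X + Y := hS.symm
  rw [map_add] at hcS hSc
  -- `conj u = -u`
  have h2u : 2 * u = Z - Y := by rw [eZ, eY]; ring
  have hcu : conj u = -u := by
    have h1 : conj (2 * u) = -(2 * u) := by
      rw [h2u, map_sub]
      linear_combination hSc - hcS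
    rw [map_mul, map_ofNat] at h1
    have h2 : (2 : ℂ) ≠ 0 := two_ne_zero
    apply mul_left_cancel₀ h2
    linear_combination h1
  set δ := Y - conj Z with hδ
  have hδ1 : Z - conj Y = δ := by
    rw [hδ]
    linear_combination (1 : ℂ) * (hSc - hcS)
  have hδ2 : X - conj X = -δ := by
    rw [hδ]
    linear_combination (-1 : ℂ) * hSc
  -- the geometric sums
  have gs : ∀ a b : ℂ, (∑ i ∈ Finset.range n, a ^ i * b ^ (n - 1 - i)) * (a - b) = a ^ n - b ^ n :=
    fun a b => (Commute.all a b).geom_sum₂_mul n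
  have hc : conj X ^ n + conj Y ^ n + conj Z ^ n = 0 := by
    rw [← map_pow, ← map_pow, ← map_pow, ← map_add, ← map_add, h, map_zero]
  set A := ∑ i ∈ Finset.range n, X ^ i * (conj X) ^ (n - 1 - i) with hA
  set B := ∑ i ∈ Finset.range n, Y ^ i * (conj Z) ^ (n - 1 - i) with hB
  set C := ∑ i ∈ Finset.range n, Z ^ i * (conj Y) ^ (n - 1 - i) with hC
  have key : δ * (B + C - A) = 0 := by
    have g1 := gs X (conj X)
    have g2 := gs Y (conj Z)
    have g3 := gs Z (conj Y)
    rw [hδ2] at g1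
    rw [hδ1] at g3
    rw [← hδ] at g2
    rw [← hA] at g1
    rw [← hB] at g2
    rw [← hC] at g3
    linear_combination g1 + g2 + g3 + h - hc
  rcases mul_eq_zero.1 key with h0 | h0
  · rw [h0] at hδ2
    refine ⟨?_, ?_⟩
    · linear_combination -hδ2
    · rw [h0] at hδ1
      linear_combination -hδ1
  · exfalso
    have heven : Even (n - 1) := hn.tsub_odd odd_one
    have ecZ : conj Z = -u * (1 + conj w) := by
      rw [eZ, map_mul, hcu, map_add, map_one]
    have ecY : conj Y = u * (1 - conj w) := by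
      rw [eY, map_mul, map_neg, hcu, map_sub, map_one]
      ring
    have hcw : ‖conj w‖ ≤ 1 / (4 * n) := by rw [Complex.norm_conj]; exact hw
    have hB1 : B = u ^ (n - 1) * ∑ i ∈ Finset.range n, (1 + -w) ^ i * (1 + conj w) ^ (n - 1 - i) := by
      rw [hB, Finset.mul_sum]
      refine Finset.sum_congr rfl fun i hi => ?_
      rw [Finset.mem_range] at hi
      rw [eY, ecZ, mul_pow, mul_pow]
      have h1 : (-u) ^ i * (-u) ^ (n - 1 - i) = u ^ (n - 1) := by
        rw [← pow_add, show i + (n - 1 - i) = n - 1 by omega, heven.neg_pow]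
      rw [← h1]
      ring
    have hC1 : C = u ^ (n - 1) * ∑ i ∈ Finset.range n, (1 + w) ^ i * (1 + -conj w) ^ (n - 1 - i) := by
      rw [hC, Finset.mul_sum]
      refine Finset.sum_congr rfl fun i hi => ?_
      rw [Finset.mem_range] at hi
      rw [eZ, ecY, mul_pow, mul_pow]
      have h1 : u ^ i * u ^ (n - 1 - i) = u ^ (n - 1) := by
        rw [← pow_add, show i + (n - 1 - i) = n - 1 by omega]
      rw [← h1]
      ring
    set B' := ∑ i ∈ Finset.range n, (1 + -w) ^ i * (1 + conj w) ^ (n - 1 - i)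
    set C' := ∑ i ∈ Finset.range n, (1 + w) ^ i * (1 + -conj w) ^ (n - 1 - i)
    have b1 : ‖B' - n‖ ≤ 5 / 16 * n := sum_pow_near hn1 (by rw [norm_neg]; exact hw) hcw
    have b2 : ‖C' - n‖ ≤ 5 / 16 * n := sum_pow_near hn1 hw (by rw [norm_neg]; exact hcw)
    have hAn : ‖A‖ ≤ n * ‖u‖ ^ (n - 1) := by
      rw [hA]
      calc _ ≤ ∑ i ∈ Finset.range n, ‖u‖ ^ (n - 1) := by
            apply norm_sum_le_of_le
            intro i hi
            rw [Finset.mem_range] at hi
            rw [norm_mul, norm_pow, norm_pow, Complex.norm_conj, ← pow_add,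
              show i + (n - 1 - i) = n - 1 by omega]
            gcongr
        _ = n * ‖u‖ ^ (n - 1) := by
          rw [Finset.sum_const, Finset.card_range, nsmul_eq_mul]
    have hA2 : A = u ^ (n - 1) * (B' + C') := by
      rw [mul_add, ← hB1, ← hC1]
      linear_combination -h0
    have h3 : ‖B' + C'‖ ≤ n := by
      have h4 : ‖u‖ ^ (n - 1) * ‖B' + C'‖ ≤ ‖u‖ ^ (n - 1) * n := by
        rw [← norm_pow, ← norm_mul, ← hA2, norm_pow, mul_comm _ (n : ℝ)]
        exact hAn
      exact le_of_mul_le_mul_left h4 (by positivity)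
    have h4 : (2 * n : ℝ) ≤ ‖B' + C'‖ + ‖B' - n‖ + ‖C' - n‖ := by
      have h5 : ((2 * n : ℝ) : ℂ) = (B' + C') - (B' - n) - (C' - n) := by
        push_cast
        ring
      have h6 : (2 * n : ℝ) = ‖((2 * n : ℝ) : ℂ)‖ := by
        rw [Complex.norm_real, Real.norm_eq_abs, abs_of_nonneg (by positivity)]
      rw [h6, h5]
      refine (norm_sub_le _ _).trans (add_le_add ?_ le_rfl)
      exact norm_sub_le _ _
    linarith

lemma mul_max3 (a : ℝ) (ha : 0 ≤ a) (x y z : ℝ) :
    max (max (a * x) (a * y)) (a * z) = a * max (max x y) z := by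
  rw [mul_max_of_nonneg _ _ ha, mul_max_of_nonneg _ _ ha]

/-- **the swap lemma** -/
lemma swap {n : ℕ} (hn : Odd n) {X Y Z : ℂ} (hX : X ≠ 0) (hY : Y ≠ 0)
    (h : X ^ n + Y ^ n + Z ^ n = 0) {M : ℝ} (hM : M ≤ max (max ‖X‖ ‖Y‖) ‖Z‖)
    (hd : ‖Y + Z‖ ≤ M / (5 * n)) (hne : Z + X ≠ 0) (heq : ‖Z + X‖ = ‖X + Y‖) :
    conj (Y / X) = Z / X ∧ M ≤ ‖Z + X‖ * (1 + 1 / (4 * n)) := by
  refine ⟨?_, ?_⟩
  · -- choose the unit `l` with `l² (Z + X) (X + Y) > 0`
    have hne2 : X + Y ≠ 0 := by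
      rw [← norm_pos_iff, ← heq, norm_pos_iff]
      exact hne
    obtain ⟨l, hl⟩ : ∃ l : ℂ, l ^ 2 = (‖Z + X‖ * ‖X + Y‖ : ℝ) / ((Z + X) * (X + Y)) :=
      IsAlgClosed.exists_pow_nat_eq _ (by norm_num)
    have hln : ‖l‖ = 1 := by
      have h1 : ‖l‖ ^ 2 = 1 := by
        rw [← norm_pow, hl, norm_div, norm_mul, Complex.norm_real, Real.norm_eq_abs,
          abs_of_nonneg (by positivity)]
        exact div_self (mul_ne_zero (norm_ne_zero_iff.2 hne) (norm_ne_zero_iff.2 hne2))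
      exact (pow_eq_one_iff_of_nonneg (norm_nonneg _) (by norm_num)).1 h1
    have hl0 : l ≠ 0 := by
      rw [← norm_pos_iff, hln]
      norm_num
    have hS : l * X + l * Y = conj (l * Z + l * X) := by
      have h1 : (l * Z + l * X) * (l * X + l * Y) = (l * Z + l * X) * conj (l * Z + l * X) := by
        rw [Complex.mul_conj, Complex.normSq_eq_norm_sq, ← mul_add l Z X, norm_mul, hln, one_mul]
        have h2 : l * (Z + X) * (l * X + l * Y) = l ^ 2 * ((Z + X) * (X + Y)) := by ring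
        rw [h2, hl, div_mul_cancel₀ _ (mul_ne_zero hne hne2), ← heq]
        push_cast
        ring
      refine mul_left_cancel₀ ?_ h1
      rw [← mul_add]
      exact mul_ne_zero hl0 hne
    have h1 := swap_aux hn (X := l * X) (Y := l * Y) (Z := l * Z) (M := M) (mul_ne_zero hl0 hY)
      (by rw [mul_pow, mul_pow, mul_pow]; linear_combination l ^ n * h)
      (by rw [norm_mul, norm_mul, norm_mul, hln, one_mul, one_mul, one_mul]; exact hM)
      (by rw [← mul_add, norm_mul, hln, one_mul]; exact hd) hS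
    have h2 : Y / X = (l * Y) / (l * X) := by
      rw [mul_div_mul_left _ _ hl0]
    have h3 : Z / X = (l * Z) / (l * X) := by
      rw [mul_div_mul_left _ _ hl0]
    rw [h2, map_div₀, h1.1, h1.2, ← h3]
  · obtain ⟨u, w, hu, eZ, eY, hw, hXu, hMu⟩ := near_line hn hY h hM hd
    have h1 : ‖u‖ ≤ ‖Z + X‖ := by
      have h2 : 2 * u = (Z + X) - (X + Y) := by
        rw [eZ, eY]
        ring
      have h3 : ‖(2 : ℂ) * u‖ ≤ ‖Z + X‖ + ‖X + Y‖ := by
        rw [h2]
        exact norm_sub_le _ _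
      rw [← heq, norm_mul] at h3
      have h4 : ‖(2 : ℂ)‖ = 2 := by simp
      rw [h4] at h3
      linarith
    have hnR : (0 : ℝ) ≤ 1 + 1 / (4 * n) := by positivity
    calc M ≤ ‖u‖ * (1 + 1 / (4 * n)) := hMu
      _ ≤ ‖Z + X‖ * (1 + 1 / (4 * n)) := by gcongr

end Pool.Agent.H577.SQ
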